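import Pool.Agent.W840.CT.Split

/-! # Visits of the limit of the uniform measures -/

set_option autoImplicit false

namespace Run7.h738.BV

open scoped Classical
open Filter Topology MeasureTheory
open Pool.Agent.W840.CT

/-- the first `k` steps -/
def res {n : ℕ} (k : ℕ) (h : k ≤ n) (ω : Fin (n + 1) → ℤ × ℤ) : Fin (k + 1) → ℤ × ℤ :=
  fun i => ω ⟨i.1, by omega⟩

/-- the infinite paths which agree with `η` up to the time `k` -/
def cyl (k : ℕ) (η : ℕ → ℤ × ℤ) : Set (ℕ → ℤ × ℤ) := {γ | ∀ i ≤ k, γ i = η i}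

theorem cyl_meas (k : ℕ) (η : ℕ → ℤ × ℤ) : MeasurableSet (cyl k η) := by
  have h : cyl k η = ⋂ i : ℕ, ⋂ _ : i ≤ k, (fun γ : ℕ → ℤ × ℤ => γ i) ⁻¹' {η i} := by
    ext γ
    simp [cyl]
  rw [h]
  exact MeasurableSet.iInter (fun i => MeasurableSet.iInter (fun _ =>
    (measurable_pi_apply i) (MeasurableSet.singleton _)))

theorem lim_tail (H : ∀ n : ℕ, Finset (Fin (n + 1) → ℤ × ℤ)) (hne : ∀ n, (H n).Nonempty)
    (hres : ∀ (n k : ℕ) (h : k ≤ n), ∀ ω ∈ H n, res k h ω ∈ H k)
    (μ : Measure (ℕ → ℤ × ℤ)) [IsProbabilityMeasure μ] (φ : ℕ → ℕ) (hφ : StrictMono φ)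
    (hlim : ∀ (k : ℕ) (η : ℕ → ℤ × ℤ), Tendsto (fun n =>
      (((H (φ n)).filter (fun ω => ∀ i : Fin (φ n + 1), i.1 ≤ k → ω i = η i.1)).card : ℝ) /
        ((H (φ n)).card : ℝ)) atTop (𝓝 (μ.real (cyl k η))))
    (P : ℤ × ℤ → Prop) (c ε : ℝ)
    (h : ∀ n, (((H n).filter (fun ω => c < (((Finset.univ : Finset (Fin (n + 1))).filter
      (fun i => P (ω i))).card : ℝ))).card : ℝ) ≤ ε * ((H n).card : ℝ)) :
    μ.real {γ | {i | P (γ i)}.Infinite ∨ c < ({i | P (γ i)}.ncard : ℝ)} ≤ ε := by
  have hε : 0 ≤ ε := by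
    have h1 := h 0
    have h2 : (0 : ℝ) < ((H 0).card : ℝ) := by exact_mod_cast (hne 0).card_pos
    have h3 : (0 : ℝ) ≤ ε * ((H 0).card : ℝ) := le_trans (Nat.cast_nonneg _) h1
    exact nonneg_of_mul_nonneg_left h3 h2
  set E : ℕ → Set (ℕ → ℤ × ℤ) := fun k =>
    {γ | c < (((Finset.range (k + 1)).filter (fun i => P (γ i))).card : ℝ)} with hE
  have hkey : ∀ k, μ.real (E k) ≤ ε := by
    intro k
    -- sums over cylinders
    have hsum : ∀ Z : Finset (Fin (k + 1) → ℤ × ℤ), Tendsto (fun n => ∑ η ∈ Z,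
        (((H (φ n)).filter (fun ω => ∀ i : Fin (φ n + 1), i.1 ≤ k → ω i = ex η i.1)).card : ℝ) /
        ((H (φ n)).card : ℝ)) atTop (𝓝 (∑ η ∈ Z, μ.real (cyl k (ex η)))) := by
      intro Z
      exact tendsto_finsetSum _ (fun η _ => hlim k (ex η))
    have hfib : ∀ Z : Finset (Fin (k + 1) → ℤ × ℤ), ∀ n (hn : k ≤ n), ∑ η ∈ Z,
        (((H n).filter (fun ω => ∀ i : Fin (n + 1), i.1 ≤ k → ω i = ex η i.1)).card : ℝ) /
        ((H n).card : ℝ) = (((H n).filter (fun ω => res k hn ω ∈ Z)).card : ℝ) /
          ((H n).card : ℝ) := by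
      intro Z n hn
      rw [← Finset.sum_div]
      congr 1
      rw [← Nat.cast_sum, Nat.cast_inj]
      have h1 := Finset.card_eq_sum_card_fiberwise (s := (H n).filter (fun ω => res k hn ω ∈ Z))
        (t := Z) (f := res k hn) (fun ω hω => (Finset.mem_filter.1 hω).2)
      rw [h1]
      refine Finset.sum_congr rfl (fun η hη => ?_)
      congr 1
      ext ω
      simp only [Finset.mem_filter]
      constructor
      · rintro ⟨h2, h3⟩
        have h4 : res k hn ω = η := by
          funext i
          have := h3 ⟨i.1, by omega⟩ (by simp only; omega)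
          rw [ex_val] at this
          exact this
        exact ⟨⟨h2, h4 ▸ hη⟩, h4⟩
      · rintro ⟨⟨h2, -⟩, h4⟩
        refine ⟨h2, fun i hi => ?_⟩
        have h5 := ex_val η ⟨i.1, by omega⟩
        simp only at h5
        rw [h5, ← h4]
        rfl
    -- the cylinders of the walks have full measure
    have hone : ∑ η ∈ H k, μ.real (cyl k (ex η)) = 1 := by
      refine tendsto_nhds_unique (hsum (H k)) ?_
      refine tendsto_const_nhds.congr' ?_
      filter_upwards [Filter.eventually_ge_atTop k] with n hn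
      have hn' : k ≤ φ n := hn.trans (hφ.id_le n)
      rw [hfib (H k) (φ n) hn']
      have h2 : (H (φ n)).filter (fun ω => res k hn' ω ∈ H k) = H (φ n) :=
        Finset.filter_true_of_mem (fun ω hω => hres _ _ hn' ω hω)
      rw [h2, div_self]
      have := (hne (φ n)).card_pos
      positivity
    have hdisj : ∀ Z : Finset (Fin (k + 1) → ℤ × ℤ),
        μ.real (⋃ η ∈ Z, cyl k (ex η)) = ∑ η ∈ Z, μ.real (cyl k (ex η)) := by
      intro Z
      refine measureReal_biUnion_finset ?_ (fun η _ => cyl_meas _ _)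
      intro η _ η' _ hne'
      rw [Function.onFun, Set.disjoint_left]
      intro γ h1 h2
      apply hne'
      refine ex_ext (fun i hi => ?_)
      rw [← h1 i hi, ← h2 i hi]
    have hcompl : μ.real (⋃ η ∈ H k, cyl k (ex η))ᶜ = 0 := by
      rw [probReal_compl_eq_one_sub (Finset.measurableSet_biUnion _ (fun η _ => cyl_meas _ _)),
        hdisj, hone, sub_self]
    set Z := (H k).filter (fun η => c < (((Finset.univ : Finset (Fin (k + 1))).filter
      (fun i => P (η i))).card : ℝ)) with hZ
    have hsub : E k ⊆ (⋃ η ∈ Z, cyl k (ex η)) ∪ (⋃ η ∈ H k, cyl k (ex η))ᶜ := by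
      intro γ hγ
      by_cases hmem : γ ∈ ⋃ η ∈ H k, cyl k (ex η)
      · left
        simp only [Set.mem_iUnion, exists_prop] at hmem ⊢
        obtain ⟨η, h1, h2⟩ := hmem
        refine ⟨η, ?_, h2⟩
        rw [hZ, Finset.mem_filter]
        refine ⟨h1, ?_⟩
        have h3 : c < (((Finset.range (k + 1)).filter (fun i => P (γ i))).card : ℝ) := hγ
        refine lt_of_lt_of_le h3 ?_
        rw [Nat.cast_le]
        refine Finset.card_le_card_of_injOn
          (fun i => if h : i < k + 1 then (⟨i, h⟩ : Fin (k + 1)) else 0) ?_ ?_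
        · intro i hi
          rw [Finset.mem_coe, Finset.mem_filter, Finset.mem_range] at hi
          rw [Finset.mem_coe, Finset.mem_filter]
          refine ⟨Finset.mem_univ _, ?_⟩
          simp only [dif_pos hi.1]
          have h4 := h2 i (by omega)
          have h5 := ex_val η ⟨i, hi.1⟩
          simp only at h5
          rw [← h5, ← h4]
          exact hi.2
        · intro i hi j hj hij
          rw [Finset.mem_coe, Finset.mem_filter, Finset.mem_range] at hi hj
          simp only [dif_pos hi.1, dif_pos hj.1, Fin.mk.injEq] at hij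
          exact hij
      · right
        exact hmem
    have h1 : μ.real (E k) ≤ ∑ η ∈ Z, μ.real (cyl k (ex η)) := by
      refine (measureReal_mono hsub (measure_ne_top _ _)).trans ?_
      refine (measureReal_union_le _ _).trans ?_
      rw [hdisj, hcompl, add_zero]
    refine h1.trans (le_of_tendsto (hsum Z) ?_)
    filter_upwards [Filter.eventually_ge_atTop k] with n hn
    have hn' : k ≤ φ n := hn.trans (hφ.id_le n)
    rw [hfib Z (φ n) hn']
    have hpos : (0 : ℝ) < ((H (φ n)).card : ℝ) := by exact_mod_cast (hne (φ n)).card_pos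
    rw [div_le_iff₀ hpos]
    refine le_trans ?_ (h (φ n))
    rw [Nat.cast_le]
    refine Finset.card_le_card ?_
    intro ω hω
    rw [Finset.mem_filter] at hω ⊢
    obtain ⟨h2, h3⟩ := hω
    refine ⟨h2, ?_⟩
    rw [hZ, Finset.mem_filter] at h3
    refine lt_of_lt_of_le h3.2 ?_
    rw [Nat.cast_le]
    refine Finset.card_le_card_of_injOn (fun i => (⟨i.1, by omega⟩ : Fin (φ n + 1))) ?_ ?_
    · intro i hi
      rw [Finset.mem_coe, Finset.mem_filter] at hi ⊢
      exact ⟨Finset.mem_univ _, hi.2⟩
    · intro i _ j _ hij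
      simp only [Fin.mk.injEq] at hij
      exact Fin.ext hij
  have hmono : Monotone E := by
    intro k k' hk γ hγ
    have h1 : c < (((Finset.range (k + 1)).filter (fun i => P (γ i))).card : ℝ) := hγ
    show c < (((Finset.range (k' + 1)).filter (fun i => P (γ i))).card : ℝ)
    refine lt_of_lt_of_le h1 ?_
    rw [Nat.cast_le]
    refine Finset.card_le_card (Finset.filter_subset_filter _ ?_)
    intro i hi
    rw [Finset.mem_range] at hi ⊢
    omega
  have hsub : {γ : ℕ → ℤ × ℤ | {i | P (γ i)}.Infinite ∨ c < ({i | P (γ i)}.ncard : ℝ)} ⊆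
      ⋃ k, E k := by
    intro γ hγ
    rw [Set.mem_iUnion]
    rcases hγ with hγ | hγ
    · obtain ⟨T, hT, hc⟩ := hγ.exists_subset_card_eq (⌊c⌋₊ + 1)
      refine ⟨T.sup id, ?_⟩
      show c < (((Finset.range (T.sup id + 1)).filter (fun i => P (γ i))).card : ℝ)
      have h1 : T ⊆ (Finset.range (T.sup id + 1)).filter (fun i => P (γ i)) := by
        intro i hi
        rw [Finset.mem_filter, Finset.mem_range]
        have := Finset.le_sup (f := id) hi
        simp only [id] at this
        exact ⟨by omega, hT hi⟩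
      have h2 := Finset.card_le_card h1
      rw [hc] at h2
      have h3 : c < ((⌊c⌋₊ + 1 : ℕ) : ℝ) := by
        push_cast
        exact Nat.lt_floor_add_one c
      exact h3.trans_le (by exact_mod_cast h2)
    · by_cases hfin : {i | P (γ i)}.Finite
      · refine ⟨hfin.toFinset.sup id, ?_⟩
        show c < (((Finset.range (hfin.toFinset.sup id + 1)).filter
          (fun i => P (γ i))).card : ℝ)
        refine lt_of_lt_of_le hγ ?_
        rw [Nat.cast_le, Set.ncard_eq_toFinset_card _ hfin]
        refine Finset.card_le_card ?_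
        intro i hi
        rw [Finset.mem_filter, Finset.mem_range]
        have := Finset.le_sup (f := id) hi
        simp only [id] at this
        exact ⟨by omega, hfin.mem_toFinset.1 hi⟩
      · rw [Set.Infinite.ncard hfin, Nat.cast_zero] at hγ
        exact ⟨0, show c < _ from hγ.trans_le (Nat.cast_nonneg _)⟩
  refine (measureReal_mono hsub (measure_ne_top _ _)).trans ?_
  unfold Measure.real
  rw [hmono.measure_iUnion]
  refine ENNReal.toReal_le_of_le_ofReal hε ?_
  refine iSup_le (fun k => ?_)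
  have h1 := hkey k
  unfold Measure.real at h1
  rw [← ENNReal.ofReal_toReal (measure_ne_top μ (E k))]
  exact ENNReal.ofReal_le_ofReal h1

end Run7.h738.BV
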