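import Pool.Agent.Run7.h738.BV.Hp
import Pool.Agent.Run7.h738.BV.Lim

/-! # Widths and heights -/

set_option autoImplicit false

namespace Run7.h738.BV

open scoped Classical
open Pool.Agent.W840.CT hiding tail_all
open Run7.h738.ND
open Pool.Agent.TH546.SAW (W mem_W card_W)

theorem mx_ge {a b : ℝ} (h : a ^ 2 + b ^ 2 = 1) : 0.7 ≤ mx a b := by
  have h1 : |a| ≤ mx a b := le_max_left _ _
  have h2 : |b| ≤ mx a b := le_max_right _ _
  have h3 := mx_nonneg a b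
  have h4 : a ^ 2 ≤ mx a b ^ 2 := by
    rw [← sq_abs a]
    exact pow_le_pow_left₀ (abs_nonneg a) h1 2
  have h5 : b ^ 2 ≤ mx a b ^ 2 := by
    rw [← sq_abs b]
    exact pow_le_pow_left₀ (abs_nonneg b) h2 2
  by_contra hcon
  push Not at hcon
  nlinarith

/-- the width which belongs to the height `y` -/
noncomputable def wy (y : ℝ) : ℕ := ⌈y / 0.7⌉₊ + 1

theorem wy_pos (y : ℝ) : 1 ≤ wy y := by
  unfold wy
  omega

theorem wy_gt {a b : ℝ} (h : a ^ 2 + b ^ 2 = 1) {y : ℝ} : y < wy y * mx a b := by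
  have h1 := mx_ge h
  have h2 : y / 0.7 ≤ ⌈y / 0.7⌉₊ := Nat.le_ceil _
  have h3 : y / 0.7 < wy y := by
    unfold wy
    push_cast
    linarith
  rw [div_lt_iff₀ (by norm_num)] at h3
  have h4 : (0 : ℝ) ≤ wy y := Nat.cast_nonneg _
  nlinarith

theorem wy_le {y : ℝ} (hy : 0 ≤ y) : (wy y : ℝ) ≤ 2 * (1 + y) := by
  unfold wy
  push_cast
  have h := (Nat.ceil_lt_add_one (show 0 ≤ y / 0.7 by positivity)).le
  have h2 : y / 0.7 ≤ 2 * y := by
    rw [div_le_iff₀ (by norm_num)]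
    linarith
  linarith

theorem Kpow {K : ℝ} (hK : 1 < K) {y : ℝ} (hy : 0 ≤ y) : K ^ wy y ≤ (K ^ 2) ^ (1 + y) := by
  calc K ^ wy y = K ^ ((wy y : ℕ) : ℝ) := (Real.rpow_natCast K _).symm
    _ ≤ K ^ (2 * (1 + y)) := Real.rpow_le_rpow_of_exponent_le hK.le (wy_le hy)
    _ = (K ^ (2 : ℝ)) ^ (1 + y) := Real.rpow_mul (by linarith) _ _
    _ = (K ^ 2) ^ (1 + y) := by
        congr 1
        exact_mod_cast Real.rpow_natCast K 2

theorem Kh_gt : 1 < Kh := by
  unfold Kh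
  norm_num

theorem half_strip {a b : ℝ} (hab : a ^ 2 + b ^ 2 = 1) (n : ℕ) {y x : ℝ} (hy : 0 ≤ y)
    (hx : 0 ≤ x) (H : Finset (Fin (n + 1) → ℤ × ℤ))
    (hH : ∀ ω, ω ∈ H ↔ SW n ω ∧ ∀ i, 0 ≤ ht a b (ω i)) :
    ((H.filter (fun ω => (Kh ^ 2) ^ (1 + y) * (1 + x) <
      (((Finset.univ : Finset (Fin (n + 1))).filter
        (fun i => ht a b (ω i) ≤ y)).card : ℝ))).card : ℝ) ≤ Real.exp (-x) * (H.card : ℝ) := by
  have hab' : (-a) ^ 2 + (-b) ^ 2 = 1 := by linarith [neg_sq a, neg_sq b]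
  have hm : 0 < mx (-a) (-b) := by
    have := mx_ge hab'
    linarith
  have hneg : ∀ v : Pt, ht (-a) (-b) v = - ht a b v := by
    intro v
    unfold ht
    ring
  have hHA : ∀ v : Pt, v ∉ HA (-a) (-b) 0 ↔ 0 ≤ ht a b v := by
    intro v
    show ¬ (0 < ht (-a) (-b) v) ↔ _
    rw [hneg]
    constructor <;> intro h <;> linarith
  have h1 := half_tail hm (wy y) n (wy_pos y) x hx
  have h2 : ((W n).filter (fun ω => ∀ i, ω i ∉ HA (-a) (-b) 0)).card ≤ H.card := by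
    refine Finset.card_le_card ?_
    intro ω hω
    rw [Finset.mem_filter, mem_W] at hω
    rw [hH]
    exact ⟨hω.1, fun i => (hHA _).1 (hω.2 i)⟩
  refine le_trans ?_ (h1.trans (mul_le_mul_of_nonneg_left (Nat.cast_le.2 h2)
    (Real.exp_pos _).le))
  rw [Nat.cast_le]
  refine Finset.card_le_card ?_
  intro ω hω
  rw [Finset.mem_filter, hH] at hω
  obtain ⟨⟨h3, h4⟩, h5⟩ := hω
  rw [Finset.mem_filter, mem_W]
  refine ⟨h3, fun i => (hHA _).2 (h4 i), ?_⟩
  have h6 : Kh ^ wy y * (1 + x) ≤ (Kh ^ 2) ^ (1 + y) * (1 + x) :=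
    mul_le_mul_of_nonneg_right (Kpow Kh_gt hy) (by linarith)
  refine lt_of_le_of_lt h6 (lt_of_lt_of_le h5 ?_)
  rw [Nat.cast_le]
  unfold NS
  refine Finset.card_le_card ?_
  intro i hi
  rw [Finset.mem_filter] at hi ⊢
  refine ⟨hi.1, near_HA ?_⟩
  rw [hneg]
  have := wy_gt hab' (y := y)
  linarith [hi.2]

/-- a straight walk in the half-plane -/
theorem half_ne (a b : ℝ) (n : ℕ) : ∃ ω : Fin (n + 1) → ℤ × ℤ,
    SW n ω ∧ ∀ i, 0 ≤ ht a b (ω i) := by
  refine ⟨fun i => ((i.1 : ℤ) • fx a b), ⟨?_, ?_, ?_⟩, ?_⟩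
  · simp only [Fin.val_zero, Nat.cast_zero, zero_smul]
    rfl
  · intro i
    simp only [Fin.val_succ, Fin.val_castSucc, Prod.smul_fst, Prod.smul_snd, smul_eq_mul]
    rcases fx_cases a b with h | h | h | h <;> rw [h] <;> simp
  · intro i j h
    simp only at h
    have h1 := congrArg Prod.fst h
    have h2 := congrArg Prod.snd h
    simp only [Prod.smul_fst, Prod.smul_snd, smul_eq_mul] at h1 h2
    refine Fin.ext ?_
    rcases fx_cases a b with h | h | h | h <;> rw [h] at h1 h2 <;> simp only at h1 h2 <;> omega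
  · intro i
    have : ht a b ((i.1 : ℤ) • fx a b) = i.1 * mx a b := by
      rw [← ht_fx a b]
      unfold ht
      simp only [Prod.smul_fst, Prod.smul_snd, smul_eq_mul, Int.cast_mul, Int.cast_natCast]
      ring
    simp only
    rw [this]
    have := mx_nonneg a b
    positivity

end Run7.h738.BV
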