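import Pool.Agent.Run7.h738.BV.Steep
import Pool.Agent.Run7.h738.BV.Strip

/-! # Extremal sites of the walk: supporting lines, farthest sites -/

set_option autoImplicit false

namespace Run7.h738.BV

open scoped Classical
open Pool.Agent.W840.CT hiding tail_all
open Run7.h738.ND
open Pool.Agent.TH546.SAW (W mem_W card_W)

theorem le_of_sq {a b : ℝ} (h : a ^ 2 ≤ b ^ 2) (hb : 0 ≤ b) : a ≤ b := by
  by_contra hcon
  push Not at hcon
  nlinarith

theorem mx_le {a b : ℝ} (h : a ^ 2 + b ^ 2 = 1) : mx a b ≤ 1 := by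
  unfold mx
  refine max_le ?_ ?_
  · rw [abs_le]
    constructor <;> nlinarith [sq_nonneg a, sq_nonneg b]
  · rw [abs_le]
    constructor <;> nlinarith [sq_nonneg a, sq_nonneg b]

theorem D_smul (v : Pt) (w : ℕ) {f : Pt} (hf : Un f) : D v (v + (w : ℤ) • f) ≤ w := by
  unfold D
  simp only [Prod.fst_add, Prod.snd_add, Prod.smul_fst, Prod.smul_snd, smul_eq_mul]
  rcases hf with h2 | h2 | h2 | h2 <;> rw [h2] <;> simp

/-- linear functions are steep -/
theorem steep_ht {a b : ℝ} (hab : a ^ 2 + b ^ 2 = 1) : Steep (ht a b) := by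
  refine ⟨fun p q => ?_, fun p => ?_, fun p w => ?_⟩
  · have h1 := ht_D a b p q
    have h2 : mx a b * (D p q : ℝ) ≤ 1 * D p q :=
      mul_le_mul_of_nonneg_right (mx_le hab) (Nat.cast_nonneg _)
    linarith
  · have ha : ht a b (sg a, 0) = |a| := by
      unfold ht
      rw [← sg_mul a]
      push_cast
      ring
    have hb : ht a b (0, sg b) = |b| := by
      unfold ht
      rw [← sg_mul b]
      push_cast
      ring
    refine ⟨p + (sg a, 0), p + (0, sg b), ?_, ?_, ?_, ?_, ?_⟩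
    · intro h
      have h1 := congrArg Prod.fst h
      simp only [Prod.fst_add] at h1
      rcases sg_cases a with h2 | h2 <;> rw [h2] at h1 <;> omega
    · unfold D
      simp only [Prod.fst_add, Prod.snd_add]
      rcases sg_cases a with h2 | h2 <;> rw [h2] <;> omega
    · unfold D
      simp only [Prod.fst_add, Prod.snd_add]
      rcases sg_cases b with h2 | h2 <;> rw [h2] <;> omega
    · rw [ht_add, ha]
      linarith [abs_nonneg a]
    · rw [ht_add, hb]
      linarith [abs_nonneg b]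
  · refine ⟨p + (w : ℤ) • fx a b, D_smul p w (fx_cases a b), ?_⟩
    have : ht a b ((w : ℤ) • fx a b) = w * mx a b := by
      rw [← ht_fx a b]
      unfold ht
      simp only [Prod.smul_fst, Prod.smul_snd, smul_eq_mul, Int.cast_mul, Int.cast_natCast]
      ring
    rw [ht_add, this]
    have h1 := mx_ge hab
    have h2 : (0 : ℝ) ≤ w := Nat.cast_nonneg _
    nlinarith

/-- the Euclidean distance from the point `(s, t)` -/
noncomputable def dz (s t : ℝ) (v : ℤ × ℤ) : ℝ := Real.sqrt ((v.1 - s) ^ 2 + (v.2 - t) ^ 2)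

theorem dz_sq (s t : ℝ) (v : ℤ × ℤ) : dz s t v ^ 2 = (v.1 - s) ^ 2 + (v.2 - t) ^ 2 := by
  unfold dz
  rw [Real.sq_sqrt (by positivity)]

theorem dz_nonneg (s t : ℝ) (v : ℤ × ℤ) : 0 ≤ dz s t v := Real.sqrt_nonneg _

theorem D_real (p q : Pt) : ((D p q : ℕ) : ℝ) = |(q.1 : ℝ) - p.1| + |(q.2 : ℝ) - p.2| := by
  unfold D
  push_cast [Nat.cast_natAbs]
  rfl

theorem dz_abs1 (s t : ℝ) (v : ℤ × ℤ) : |(v.1 : ℝ) - s| ≤ dz s t v := by
  unfold dz
  rw [← Real.sqrt_sq_eq_abs]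
  exact Real.sqrt_le_sqrt (by nlinarith [sq_nonneg ((v.2 : ℝ) - t)])

theorem dz_abs2 (s t : ℝ) (v : ℤ × ℤ) : |(v.2 : ℝ) - t| ≤ dz s t v := by
  unfold dz
  rw [← Real.sqrt_sq_eq_abs]
  exact Real.sqrt_le_sqrt (by nlinarith [sq_nonneg ((v.1 : ℝ) - s)])

/-- the distance is Lipschitz -/
theorem dz_lip (s t : ℝ) (p q : Pt) : dz s t q ≤ dz s t p + D p q := by
  have h0 := dz_nonneg s t p
  have hD : (0 : ℝ) ≤ D p q := Nat.cast_nonneg _
  refine le_of_sq ?_ (by linarith)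
  rw [dz_sq, add_sq, dz_sq]
  have h1 := dz_abs1 s t p
  have h2 := dz_abs2 s t p
  set X : ℝ := (q.1 : ℝ) - p.1 with hX
  set Y : ℝ := (q.2 : ℝ) - p.2 with hY
  have e1 : (q.1 : ℝ) - s = ((p.1 : ℝ) - s) + X := by rw [hX]; ring
  have e2 : (q.2 : ℝ) - t = ((p.2 : ℝ) - t) + Y := by rw [hY]; ring
  rw [e1, e2, D_real, ← hX, ← hY]
  have h3 : ((p.1 : ℝ) - s) * X ≤ dz s t p * |X| := by
    calc ((p.1 : ℝ) - s) * X ≤ |((p.1 : ℝ) - s) * X| := le_abs_self _
      _ = |(p.1 : ℝ) - s| * |X| := abs_mul _ _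
      _ ≤ _ := mul_le_mul_of_nonneg_right h1 (abs_nonneg _)
  have h4 : ((p.2 : ℝ) - t) * Y ≤ dz s t p * |Y| := by
    calc ((p.2 : ℝ) - t) * Y ≤ |((p.2 : ℝ) - t) * Y| := le_abs_self _
      _ = |(p.2 : ℝ) - t| * |Y| := abs_mul _ _
      _ ≤ _ := mul_le_mul_of_nonneg_right h2 (abs_nonneg _)
  have h5 : X ^ 2 + Y ^ 2 ≤ (|X| + |Y|) ^ 2 := by
    rw [add_sq, sq_abs, sq_abs]
    nlinarith [mul_nonneg (abs_nonneg X) (abs_nonneg Y)]
  nlinarith

/-- moving away in one coordinate -/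
theorem sgn_sq (c k : ℝ) : (c + k * (sg c : ℝ)) ^ 2 = c ^ 2 + 2 * k * |c| + k ^ 2 := by
  have h1 := sg_mul c
  have h2 : (sg c : ℝ) ^ 2 = 1 := by
    rcases sg_cases c with h | h <;> rw [h] <;> norm_num
  calc (c + k * (sg c : ℝ)) ^ 2 = c ^ 2 + 2 * k * (c * sg c) + k ^ 2 * (sg c : ℝ) ^ 2 := by ring
    _ = _ := by rw [h1, h2]; ring

/-- the distance from a point is steep -/
theorem steep_dz (s t : ℝ) : Steep (dz s t) := by
  refine ⟨dz_lip s t, fun p => ?_, fun p w => ?_⟩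
  · refine ⟨p + (sg ((p.1 : ℝ) - s), 0), p + (0, sg ((p.2 : ℝ) - t)), ?_, ?_, ?_, ?_, ?_⟩
    · intro h
      have h1 := congrArg Prod.fst h
      simp only [Prod.fst_add] at h1
      rcases sg_cases ((p.1 : ℝ) - s) with h2 | h2 <;> rw [h2] at h1 <;> omega
    · unfold D
      simp only [Prod.fst_add, Prod.snd_add]
      rcases sg_cases ((p.1 : ℝ) - s) with h2 | h2 <;> rw [h2] <;> omega
    · unfold D
      simp only [Prod.fst_add, Prod.snd_add]
      rcases sg_cases ((p.2 : ℝ) - t) with h2 | h2 <;> rw [h2] <;> omega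
    · unfold dz
      refine Real.sqrt_le_sqrt ?_
      simp only [Prod.fst_add, Prod.snd_add, Int.cast_add, Int.cast_zero, add_zero]
      have h1 := sgn_sq ((p.1 : ℝ) - s) 1
      have h2 := abs_nonneg ((p.1 : ℝ) - s)
      have e : (p.1 : ℝ) + (sg ((p.1 : ℝ) - s) : ℝ) - s =
          ((p.1 : ℝ) - s) + 1 * (sg ((p.1 : ℝ) - s) : ℝ) := by ring
      rw [e, h1]
      nlinarith
    · unfold dz
      refine Real.sqrt_le_sqrt ?_
      simp only [Prod.fst_add, Prod.snd_add, Int.cast_add, Int.cast_zero, add_zero]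
      have h1 := sgn_sq ((p.2 : ℝ) - t) 1
      have h2 := abs_nonneg ((p.2 : ℝ) - t)
      have e : (p.2 : ℝ) + (sg ((p.2 : ℝ) - t) : ℝ) - t =
          ((p.2 : ℝ) - t) + 1 * (sg ((p.2 : ℝ) - t) : ℝ) := by ring
      rw [e, h1]
      nlinarith
  · have hw : (0 : ℝ) ≤ w := Nat.cast_nonneg _
    have h0 := dz_nonneg s t p
    have hsq := dz_sq s t p
    rcases le_total |(p.2 : ℝ) - t| |(p.1 : ℝ) - s| with hc | hc
    · refine ⟨p + (w : ℤ) • (sg ((p.1 : ℝ) - s), 0), D_smul p w ?_, ?_⟩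
      · rcases sg_cases ((p.1 : ℝ) - s) with h | h <;> rw [h] <;> simp [Un]
      · refine le_of_sq ?_ (dz_nonneg _ _ _)
        rw [dz_sq, add_sq]
        simp only [Prod.fst_add, Prod.snd_add, Prod.smul_fst, Prod.smul_snd, smul_eq_mul,
          Int.cast_add, Int.cast_mul, Int.cast_natCast, mul_zero, Int.cast_zero, add_zero]
        have h1 := sgn_sq ((p.1 : ℝ) - s) (w : ℝ)
        have e : (p.1 : ℝ) + (w : ℝ) * (sg ((p.1 : ℝ) - s) : ℝ) - s =
            ((p.1 : ℝ) - s) + w * (sg ((p.1 : ℝ) - s) : ℝ) := by ring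
        rw [e, h1]
        have h2 : 0.7 * dz s t p ≤ |(p.1 : ℝ) - s| := by
          refine le_of_sq ?_ (abs_nonneg _)
          rw [mul_pow, hsq, sq_abs]
          have h3 : ((p.2 : ℝ) - t) ^ 2 ≤ ((p.1 : ℝ) - s) ^ 2 := by
            rw [← sq_abs ((p.2 : ℝ) - t), ← sq_abs ((p.1 : ℝ) - s)]
            exact pow_le_pow_left₀ (abs_nonneg _) hc 2
          nlinarith [sq_nonneg ((p.1 : ℝ) - s)]
        have h4 := mul_le_mul_of_nonneg_left h2 hw
        nlinarith [sq_nonneg (w : ℝ)]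
    · refine ⟨p + (w : ℤ) • (0, sg ((p.2 : ℝ) - t)), D_smul p w ?_, ?_⟩
      · rcases sg_cases ((p.2 : ℝ) - t) with h | h <;> rw [h] <;> simp [Un]
      · refine le_of_sq ?_ (dz_nonneg _ _ _)
        rw [dz_sq, add_sq]
        simp only [Prod.fst_add, Prod.snd_add, Prod.smul_fst, Prod.smul_snd, smul_eq_mul,
          Int.cast_add, Int.cast_mul, Int.cast_natCast, mul_zero, Int.cast_zero, add_zero]
        have h1 := sgn_sq ((p.2 : ℝ) - t) (w : ℝ)
        have e : (p.2 : ℝ) + (w : ℝ) * (sg ((p.2 : ℝ) - t) : ℝ) - t =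
            ((p.2 : ℝ) - t) + w * (sg ((p.2 : ℝ) - t) : ℝ) := by ring
        rw [e, h1]
        have h2 : 0.7 * dz s t p ≤ |(p.2 : ℝ) - t| := by
          refine le_of_sq ?_ (abs_nonneg _)
          rw [mul_pow, hsq, sq_abs]
          have h3 : ((p.1 : ℝ) - s) ^ 2 ≤ ((p.2 : ℝ) - t) ^ 2 := by
            rw [← sq_abs ((p.2 : ℝ) - t), ← sq_abs ((p.1 : ℝ) - s)]
            exact pow_le_pow_left₀ (abs_nonneg _) hc 2
          nlinarith [sq_nonneg ((p.2 : ℝ) - t)]
        have h4 := mul_le_mul_of_nonneg_left h2 hw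
        nlinarith [sq_nonneg (w : ℝ)]

/-! ### All directions at the same time -/

theorem cos_lip (s t : ℝ) : |Real.cos s - Real.cos t| ≤ |s - t| := by
  rw [Real.cos_sub_cos, abs_mul, abs_mul, abs_neg, abs_of_pos (show (0 : ℝ) < 2 by norm_num)]
  have h1 := Real.abs_sin_le_one ((s + t) / 2)
  have h2 : |Real.sin ((s - t) / 2)| ≤ |(s - t) / 2| := Real.abs_sin_le_abs
  have h3 : |(s - t) / 2| = |s - t| / 2 := by
    rw [abs_div, abs_of_pos (show (0 : ℝ) < 2 by norm_num)]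
  rw [h3] at h2
  have h4 := abs_nonneg (Real.sin ((s + t) / 2))
  have h5 := abs_nonneg (Real.sin ((s - t) / 2))
  nlinarith

theorem sin_lip (s t : ℝ) : |Real.sin s - Real.sin t| ≤ |s - t| := by
  rw [Real.sin_sub_sin, abs_mul, abs_mul, abs_of_pos (show (0 : ℝ) < 2 by norm_num)]
  have h1 := Real.abs_cos_le_one ((s + t) / 2)
  have h2 : |Real.sin ((s - t) / 2)| ≤ |(s - t) / 2| := Real.abs_sin_le_abs
  have h3 : |(s - t) / 2| = |s - t| / 2 := by
    rw [abs_div, abs_of_pos (show (0 : ℝ) < 2 by norm_num)]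
  rw [h3] at h2
  have h4 := abs_nonneg (Real.cos ((s + t) / 2))
  have h5 := abs_nonneg (Real.sin ((s - t) / 2))
  nlinarith

/-- the angles of the net -/
noncomputable def ang (n j : ℕ) : ℝ := -Real.pi + 2 * Real.pi / (7 * (n + 1)) * j

theorem net (n : ℕ) {a b : ℝ} (hab : a ^ 2 + b ^ 2 = 1) : ∃ j ≤ 7 * (n + 1),
    |a - Real.cos (ang n j)| ≤ 1 / (n + 1) ∧ |b - Real.sin (ang n j)| ≤ 1 / (n + 1) := by
  -- the angle
  obtain ⟨θ, h1, h2, ha, hb⟩ : ∃ θ : ℝ, -Real.pi ≤ θ ∧ θ ≤ Real.pi ∧ a = Real.cos θ ∧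
      b = Real.sin θ := by
    set z : ℂ := ⟨a, b⟩ with hz
    have hn : ‖z‖ = 1 := by
      have : ‖z‖ ^ 2 = 1 := by
        rw [← Complex.normSq_eq_norm_sq, Complex.normSq_mk]
        linarith
      have h0 := norm_nonneg z
      nlinarith
    have hz0 : z ≠ 0 := by
      intro h
      rw [h, norm_zero] at hn
      norm_num at hn
    refine ⟨Complex.arg z, (Complex.neg_pi_lt_arg z).le, Complex.arg_le_pi z, ?_, ?_⟩
    · rw [Complex.cos_arg hz0, hn, div_one]
    · rw [Complex.sin_arg, hn, div_one]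
  have hn0 : (0 : ℝ) < n + 1 := by positivity
  set δ := 2 * Real.pi / (7 * ((n : ℝ) + 1)) with hδ
  have hδ0 : 0 < δ := by positivity
  have hδ1 : δ ≤ 1 / (n + 1) := by
    rw [hδ, div_le_div_iff₀ (by positivity) hn0]
    have := Real.pi_lt_d2
    nlinarith
  set j := ⌊(θ + Real.pi) / δ⌋₊ with hj
  have hj1 : (j : ℝ) ≤ (θ + Real.pi) / δ := Nat.floor_le (div_nonneg (by linarith) hδ0.le)
  have hj2 : (θ + Real.pi) / δ < j + 1 := Nat.lt_floor_add_one _
  rw [le_div_iff₀ hδ0] at hj1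
  rw [div_lt_iff₀ hδ0] at hj2
  have hang : |θ - ang n j| ≤ 1 / (n + 1) := by
    refine le_trans ?_ hδ1
    unfold ang
    rw [← hδ, abs_le]
    constructor <;> nlinarith
  refine ⟨j, ?_, ?_, ?_⟩
  · have h3 : (j : ℝ) ≤ ((7 * (n + 1) : ℕ) : ℝ) := by
      push_cast
      have h4 : (7 * ((n : ℝ) + 1)) * δ = 2 * Real.pi := by
        rw [hδ]
        field_simp
      by_contra hcon
      push Not at hcon
      have := mul_lt_mul_of_pos_right hcon hδ0
      linarith
    exact_mod_cast h3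
  · rw [ha]
    exact (cos_lip _ _).trans hang
  · rw [hb]
    exact (sin_lip _ _).trans hang

/-- the near-maximisers in one direction are near-maximisers in a direction of the net -/
theorem nS_net {n : ℕ} {ω : Fin (n + 1) → ℤ × ℤ} (h : SW n ω) {a b a' b' : ℝ}
    (ha : |a - a'| ≤ 1 / (n + 1)) (hb : |b - b'| ≤ 1 / (n + 1)) (y : ℝ) :
    nS (ht a b) y ω ≤ nS (ht a' b') (y + 2) ω := by
  have hn0 : (0 : ℝ) < n + 1 := by positivity
  have key : ∀ i, |ht a b (ω i) - ht a' b' (ω i)| ≤ 1 := by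
    intro i
    have h1 : ht a b (ω i) - ht a' b' (ω i) = (a - a') * (ω i).1 + (b - b') * (ω i).2 := by
      unfold ht
      ring
    rw [h1]
    have h2 := D_SW h i
    have h3 : |((ω i).1 : ℝ)| + |((ω i).2 : ℝ)| ≤ n := by
      have h4 := D_real 0 (ω i)
      simp only [Prod.fst_zero, Prod.snd_zero, Int.cast_zero, sub_zero] at h4
      rw [← h4]
      exact_mod_cast h2
    calc |(a - a') * (ω i).1 + (b - b') * (ω i).2|
        ≤ |(a - a') * (ω i).1| + |(b - b') * (ω i).2| := abs_add_le _ _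
      _ = |a - a'| * |((ω i).1 : ℝ)| + |b - b'| * |((ω i).2 : ℝ)| := by rw [abs_mul, abs_mul]
      _ ≤ 1 / (n + 1) * |((ω i).1 : ℝ)| + 1 / (n + 1) * |((ω i).2 : ℝ)| :=
          add_le_add (mul_le_mul_of_nonneg_right ha (abs_nonneg _))
            (mul_le_mul_of_nonneg_right hb (abs_nonneg _))
      _ = 1 / (n + 1) * (|((ω i).1 : ℝ)| + |((ω i).2 : ℝ)|) := by ring
      _ ≤ 1 / (n + 1) * n := mul_le_mul_of_nonneg_left h3 (by positivity)
      _ ≤ 1 := by
          rw [one_div, inv_mul_le_iff₀ hn0]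
          linarith
  unfold nS
  refine Finset.card_le_card ?_
  intro i hi
  rw [Finset.mem_filter] at hi ⊢
  refine ⟨hi.1, fun j => ?_⟩
  have h1 := abs_le.1 (key i)
  have h2 := abs_le.1 (key j)
  have h3 := hi.2 j
  linarith

theorem nS_mono (h : Pt → ℝ) {y y' : ℝ} (hy : y ≤ y') {n : ℕ} (ω : Fin (n + 1) → ℤ × ℤ) :
    nS h y ω ≤ nS h y' ω := by
  unfold nS
  refine Finset.card_le_card ?_
  intro i hi
  rw [Finset.mem_filter] at hi ⊢
  exact ⟨hi.1, fun j => (hi.2 j).trans (by linarith)⟩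

/-- the functions of the union bound -/
noncomputable def hf (n : ℕ) : ℕ ⊕ (ℤ × ℤ) → Pt → ℝ
  | Sum.inl j => ht (Real.cos (ang n j)) (Real.sin (ang n j))
  | Sum.inr z => dz z.1 z.2

/-- the index set of the union bound -/
noncomputable def Tn (n : ℕ) : Finset (ℕ ⊕ (ℤ × ℤ)) :=
  (Finset.range (7 * (n + 1) + 1)).disjSum
    (Finset.Icc (-(n : ℤ)) n ×ˢ Finset.Icc (-(n : ℤ)) n)

theorem Tn_card (n : ℕ) : ((Tn n).card : ℝ) ≤ 12 * ((n : ℝ) + 1) ^ 2 := by
  have h : (Tn n).card = 7 * (n + 1) + 1 + (2 * n + 1) * (2 * n + 1) := by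
    unfold Tn
    rw [Finset.card_disjSum, Finset.card_range, Finset.card_product, Int.card_Icc]
    have : ((n : ℤ) + 1 - -(n : ℤ)).toNat = 2 * n + 1 := by omega
    rw [this]
  rw [h]
  push_cast
  have : (0 : ℝ) ≤ n := Nat.cast_nonneg _
  nlinarith

theorem Tn_ne (n : ℕ) : (Tn n).Nonempty := by
  refine ⟨Sum.inl 0, ?_⟩
  unfold Tn
  rw [Finset.inl_mem_disjSum]
  exact Finset.mem_range.2 (by omega)

/-- **Extremal sites, all directions and all centres.** -/
theorem extr_all (n : ℕ) {y x : ℝ} (hy : 0 ≤ y) (hx : 0 ≤ x) :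
    (((W n).filter (fun ω =>
      (∃ a b : ℝ, a ^ 2 + b ^ 2 = 1 ∧
        (4 * Kb ^ 9) ^ (1 + y) * (1 + Real.log (n + 1) + x) < nS (ht a b) y ω) ∨
      (∃ k, (4 * Kb ^ 9) ^ (1 + y) * (1 + Real.log (n + 1) + x) <
        nS (dz (ω k).1 (ω k).2) y ω))).card : ℝ) ≤
      Real.exp (-x) * (cn n : ℝ) := by
  have hn0 : (0 : ℝ) < n + 1 := by positivity
  have hlog : 0 ≤ Real.log (n + 1) := Real.log_nonneg (by linarith [Nat.cast_nonneg (α := ℝ) n])
  have hT0 : (0 : ℝ) < (Tn n).card := by exact_mod_cast (Tn_ne n).card_pos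
  have hlogT : Real.log (Tn n).card ≤ 2.5 + 2 * Real.log (n + 1) := by
    calc Real.log (Tn n).card ≤ Real.log (12 * ((n : ℝ) + 1) ^ 2) :=
          Real.log_le_log hT0 (Tn_card n)
      _ = Real.log 12 + 2 * Real.log (n + 1) := by
          rw [Real.log_mul (by norm_num) (by positivity), Real.log_pow]
          push_cast
          ring
      _ ≤ _ := by
          have h12 : Real.log 12 ≤ 2.5 := by
            rw [Real.log_le_iff_le_exp (by norm_num)]
            have h1 : (2.71 : ℝ) ≤ Real.exp 1 := by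
              have := Real.exp_one_gt_d9
              linarith
            calc (12 : ℝ) ≤ 2.71 ^ 2 * (1 + 0.64) := by norm_num
              _ ≤ Real.exp 1 ^ 2 * (Real.exp 0.25 * Real.exp 0.25) := by
                  refine mul_le_mul (pow_le_pow_left₀ (by norm_num) h1 2) ?_ (by norm_num)
                    (by positivity)
                  have h2 : (1 + 0.25 + 0.25 ^ 2 / 2 : ℝ) ≤ Real.exp 0.25 :=
                    Real.quadratic_le_exp_of_nonneg (by norm_num)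
                  nlinarith
              _ = Real.exp 2.5 := by
                  rw [← Real.exp_nat_mul, ← Real.exp_add, ← Real.exp_add]
                  congr 1
                  norm_num
          linarith
  have hK := Kb_gt
  have hthr : (Kb ^ 3) ^ (1 + (y + 2)) * (1 + (x + Real.log (Tn n).card)) ≤
      (4 * Kb ^ 9) ^ (1 + y) * (1 + Real.log (n + 1) + x) := by
    have h1 : (Kb ^ 3) ^ (1 + (y + 2)) ≤ (Kb ^ 9) ^ (1 + y) := by
      have e1 : (Kb ^ 9 : ℝ) = (Kb ^ 3) ^ (3 : ℝ) := by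
        rw [show (3 : ℝ) = ((3 : ℕ) : ℝ) by norm_num, Real.rpow_natCast, ← pow_mul]
      rw [e1, ← Real.rpow_mul (by positivity)]
      refine Real.rpow_le_rpow_of_exponent_le ?_ (by linarith)
      exact one_le_pow₀ hK.le
    have h2 : 1 + (x + Real.log (Tn n).card) ≤ 4 * (1 + Real.log (n + 1) + x) := by
      linarith
    have h3 : (4 : ℝ) ≤ 4 ^ (1 + y) := by
      calc (4 : ℝ) = 4 ^ (1 : ℝ) := (Real.rpow_one 4).symm
        _ ≤ _ := Real.rpow_le_rpow_of_exponent_le (by norm_num) (by linarith)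
    have h5 : 0 ≤ Real.log (Tn n).card := Real.log_nonneg (by exact_mod_cast (Tn_ne n).card_pos)
    rw [Real.mul_rpow (by norm_num) (by positivity)]
    have h4 : (0 : ℝ) ≤ (Kb ^ 9) ^ (1 + y) := Real.rpow_nonneg (by positivity) _
    calc (Kb ^ 3) ^ (1 + (y + 2)) * (1 + (x + Real.log (Tn n).card))
        ≤ (Kb ^ 9) ^ (1 + y) * (4 * (1 + Real.log (n + 1) + x)) :=
          mul_le_mul h1 h2 (by linarith) h4
      _ = 4 * ((Kb ^ 9) ^ (1 + y) * (1 + Real.log (n + 1) + x)) := by ring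
      _ ≤ 4 ^ (1 + y) * ((Kb ^ 9) ^ (1 + y) * (1 + Real.log (n + 1) + x)) :=
          mul_le_mul_of_nonneg_right h3 (by positivity)
      _ = _ := by ring
  have hall := steep_fam (Tn n) (hf n) (fun t _ => by
    match t with
    | Sum.inl j => exact steep_ht (by rw [add_comm]; exact Real.sin_sq_add_cos_sq _)
    | Sum.inr z => exact steep_dz _ _) (Tn_ne n) n (show 0 ≤ y + 2 by linarith) hx
  refine le_trans ?_ hall
  rw [Nat.cast_le]
  refine Finset.card_le_card ?_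
  intro ω hω
  rw [Finset.mem_filter] at hω ⊢
  obtain ⟨h1, h2⟩ := hω
  refine ⟨h1, ?_⟩
  have hSW := mem_W.1 h1
  rcases h2 with ⟨a, b, hab, h2⟩ | ⟨k, h2⟩
  · obtain ⟨j, hj, ha, hb⟩ := net n hab
    refine ⟨Sum.inl j, ?_, lt_of_le_of_lt hthr (lt_of_lt_of_le h2 ?_)⟩
    · unfold Tn
      rw [Finset.inl_mem_disjSum]
      exact Finset.mem_range.2 (by omega)
    · exact_mod_cast nS_net hSW ha hb y
  · refine ⟨Sum.inr (ω k), ?_, lt_of_le_of_lt hthr (lt_of_lt_of_le h2 ?_)⟩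
    · unfold Tn
      rw [Finset.inr_mem_disjSum, Finset.mem_product, Finset.mem_Icc, Finset.mem_Icc]
      have h3 := D_SW hSW k
      unfold D at h3
      simp only [Prod.fst_zero, Prod.snd_zero, sub_zero] at h3
      omega
    · exact_mod_cast nS_mono _ (by linarith) ω

end Run7.h738.BV
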