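import Pool.Agent.Run7.h738.BV.Nr

/-! # Half-planes in arbitrary directions as obstacles -/

set_option autoImplicit false

namespace Run7.h738.BV

open scoped Classical
open Pool.Agent.W840.CT hiding tail_all
open Run7.h738.ND
open Pool.Agent.TH546.SAW (W mem_W card_W)

/-- the height of a point in the direction `(a, b)` -/
noncomputable def ht (a b : ℝ) (v : ℤ × ℤ) : ℝ := a * v.1 + b * v.2

theorem ht_add (a b : ℝ) (u v : Pt) : ht a b (u + v) = ht a b u + ht a b v := by
  unfold ht
  simp only [Prod.fst_add, Prod.snd_add, Int.cast_add]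
  ring

theorem ht_sub (a b : ℝ) (u v : Pt) : ht a b (u - v) = ht a b u - ht a b v := by
  unfold ht
  simp only [Prod.fst_sub, Prod.snd_sub, Int.cast_sub]
  ring

theorem ht_zero (a b : ℝ) : ht a b 0 = 0 := by
  unfold ht
  simp

/-- the obstacle: the points above the level `t` -/
def HA (a b t : ℝ) : Set Pt := {v | t < ht a b v}

/-- the maximal increase of the height in one step -/
noncomputable def mx (a b : ℝ) : ℝ := max |a| |b|

/-- the sign -/
noncomputable def sg (a : ℝ) : ℤ := if 0 ≤ a then 1 else -1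

theorem sg_mul (a : ℝ) : a * (sg a : ℝ) = |a| := by
  unfold sg
  split_ifs with h
  · rw [abs_of_nonneg h]; push_cast; ring
  · rw [abs_of_neg (not_le.1 h)]; push_cast; ring

theorem sg_cases (a : ℝ) : sg a = 1 ∨ sg a = -1 := by
  unfold sg
  split_ifs
  · exact Or.inl rfl
  · exact Or.inr rfl

theorem thick_HA (a b t : ℝ) : ThickS (HA a b t) := by
  intro p hp
  have hp' : t < ht a b p := hp
  refine ⟨p + (sg a, 0), ?_, p + (0, sg b), ?_, ?_, ?_, ?_⟩
  · show t < ht a b _
    rw [ht_add]
    have : ht a b (sg a, 0) = |a| := by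
      unfold ht
      rw [← sg_mul a]
      push_cast
      ring
    have := abs_nonneg a
    linarith
  · show t < ht a b _
    rw [ht_add]
    have : ht a b (0, sg b) = |b| := by
      unfold ht
      rw [← sg_mul b]
      push_cast
      ring
    have := abs_nonneg b
    linarith
  · intro h
    have h1 := congrArg Prod.fst h
    simp only [Prod.fst_add] at h1
    rcases sg_cases a with h2 | h2 <;> rw [h2] at h1 <;> omega
  · unfold D
    simp only [Prod.fst_add, Prod.snd_add]
    rcases sg_cases a with h2 | h2 <;> rw [h2] <;> omega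
  · unfold D
    simp only [Prod.fst_add, Prod.snd_add]
    rcases sg_cases b with h2 | h2 <;> rw [h2] <;> omega

theorem mx_nonneg (a b : ℝ) : 0 ≤ mx a b := le_max_of_le_left (abs_nonneg a)

/-- the height changes by at most `mx` per unit distance -/
theorem ht_D (a b : ℝ) (p q : Pt) : ht a b q ≤ ht a b p + mx a b * D p q := by
  have h1 : ht a b q - ht a b p = a * (q.1 - p.1) + b * (q.2 - p.2) := by
    unfold ht
    ring
  have h2 : a * ((q.1 : ℝ) - p.1) ≤ mx a b * |(q.1 : ℝ) - p.1| := by
    calc a * ((q.1 : ℝ) - p.1) ≤ |a * ((q.1 : ℝ) - p.1)| := le_abs_self _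
      _ = |a| * |(q.1 : ℝ) - p.1| := abs_mul _ _
      _ ≤ _ := mul_le_mul_of_nonneg_right (le_max_left _ _) (abs_nonneg _)
  have h3 : b * ((q.2 : ℝ) - p.2) ≤ mx a b * |(q.2 : ℝ) - p.2| := by
    calc b * ((q.2 : ℝ) - p.2) ≤ |b * ((q.2 : ℝ) - p.2)| := le_abs_self _
      _ = |b| * |(q.2 : ℝ) - p.2| := abs_mul _ _
      _ ≤ _ := mul_le_mul_of_nonneg_right (le_max_right _ _) (abs_nonneg _)
  have h4 : ((D p q : ℕ) : ℝ) = |(q.1 : ℝ) - p.1| + |(q.2 : ℝ) - p.2| := by
    unfold D
    push_cast [Nat.cast_natAbs]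
    rfl
  rw [h4, mul_add]
  linarith

/-- the unit vector of steepest ascent -/
noncomputable def fx (a b : ℝ) : Pt := if |b| ≤ |a| then (sg a, 0) else (0, sg b)

theorem ht_fx (a b : ℝ) : ht a b (fx a b) = mx a b := by
  unfold fx mx
  split_ifs with h
  · rw [max_eq_left h, ← sg_mul a]
    unfold ht
    push_cast
    ring
  · rw [max_eq_right (not_le.1 h).le, ← sg_mul b]
    unfold ht
    push_cast
    ring

theorem fx_cases (a b : ℝ) : fx a b = (1, 0) ∨ fx a b = (-1, 0) ∨ fx a b = (0, 1) ∨
    fx a b = (0, -1) := by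
  unfold fx
  split_ifs with h
  · rcases sg_cases a with h2 | h2 <;> rw [h2] <;> simp
  · rcases sg_cases b with h2 | h2 <;> rw [h2] <;> simp

/-- points just below the level are close to the obstacle -/
theorem near_HA {a b t : ℝ} {w : ℕ} {v : Pt} (h : t < ht a b v + w * mx a b) :
    ∃ p ∈ HA a b t, D v p ≤ w := by
  refine ⟨v + (w : ℤ) • fx a b, ?_, ?_⟩
  · show t < ht a b _
    rw [ht_add]
    have : ht a b ((w : ℤ) • fx a b) = w * mx a b := by
      rw [← ht_fx a b]
      unfold ht
      simp only [Prod.smul_fst, Prod.smul_snd, smul_eq_mul, Int.cast_mul, Int.cast_natCast]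
      ring
    rw [this]
    exact h
  · unfold D
    simp only [Prod.fst_add, Prod.snd_add, Prod.smul_fst, Prod.smul_snd, smul_eq_mul]
    rcases fx_cases a b with h2 | h2 | h2 | h2 <;> rw [h2] <;> simp

/-- number of walks all of whose points satisfy `Q` -/
noncomputable def TQ (Q : Pt → Prop) (n : ℕ) : ℕ := ((LSf n).filter (fun B => ∀ v ∈ B, Q v)).card

theorem TQ_succ (Q : Pt → Prop) (n : ℕ) : TQ Q (n + 1) ≤ 4 * TQ Q n := by
  unfold TQ
  have h : ((LSf (n + 1)).filter (fun B => ∀ v ∈ B, Q v)) ⊆
      ((((LSf n).filter (fun B => ∀ v ∈ B, Q v)) ×ˢ dirs).image extl) := by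
    intro l hl
    rw [Finset.mem_filter, mem_LSf] at hl
    obtain ⟨h1, h2⟩ := hl
    obtain ⟨q, hq, rfl⟩ := LS_subset n h1
    obtain ⟨hq1, hq2⟩ := hq
    rw [Finset.mem_image]
    refine ⟨q, ?_, rfl⟩
    rw [Finset.mem_product, Finset.mem_filter, mem_LSf]
    refine ⟨⟨hq1, fun v hv => h2 v ?_⟩, hq2⟩
    unfold extl
    exact List.mem_append_left _ hv
  refine (Finset.card_le_card h).trans (Finset.card_image_le.trans ?_)
  rw [Finset.card_product, mul_comm]
  exact le_of_eq rfl

theorem TQ_add (Q : Pt → Prop) (n k : ℕ) : TQ Q (n + 2 * k) ≤ 16 ^ k * TQ Q n := by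
  induction k with
  | zero => simp
  | succ k ih =>
    have e : n + 2 * (k + 1) = n + 2 * k + 1 + 1 := by ring
    rw [e]
    calc _ ≤ 4 * TQ Q (n + 2 * k + 1) := TQ_succ _ _
      _ ≤ 4 * (4 * TQ Q (n + 2 * k)) := Nat.mul_le_mul_left _ (TQ_succ _ _)
      _ ≤ 4 * (4 * (16 ^ k * TQ Q n)) := by gcongr
      _ = 16 ^ (k + 1) * TQ Q n := by ring

/-- the walk of a list -/
theorem SW_of_LS {n : ℕ} {l : List Pt} (hl : l ∈ LS n) :
    SW n (fun i : Fin (n + 1) => l.getD i.1 0) := by
  obtain ⟨h1, h2, h3, h4⟩ := hl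
  refine ⟨?_, ?_, ?_⟩
  · match l, h2 with
    | a :: l, h2 =>
      simp only [List.head?_cons, Option.some.injEq] at h2
      subst h2
      rfl
  · intro i
    have hi : i.1 + 1 < l.length := by rw [h1]; omega
    have h5 := List.isChain_iff_getElem.1 h3 i.1 hi
    unfold adj at h5
    simp only [Fin.val_succ, Fin.val_castSucc]
    rw [List.getD_eq_getElem _ _ hi, List.getD_eq_getElem _ _ (by omega)]
    exact h5
  · intro i j h
    simp only at h
    rw [List.getD_eq_getElem _ _ (by omega), List.getD_eq_getElem _ _ (by omega),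
      h4.getElem_inj_iff] at h
    exact Fin.ext h

theorem TQ_le (Q : Pt → Prop) (n : ℕ) : TQ Q n ≤ ((W n).filter (fun ω => ∀ i, Q (ω i))).card := by
  unfold TQ
  refine Finset.card_le_card_of_injOn (fun (l : List Pt) (i : Fin (n + 1)) => l.getD i.1 0) ?_ ?_
  · intro l hl
    rw [Finset.mem_coe, Finset.mem_filter, mem_LSf] at hl
    rw [Finset.mem_coe, Finset.mem_filter, mem_W]
    refine ⟨SW_of_LS hl.1, fun i => hl.2 _ ?_⟩
    have : i.1 < l.length := by rw [hl.1.1]; omega
    simp only
    rw [List.getD_eq_getElem _ _ this]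
    exact List.getElem_mem _
  · intro l hl l' hl' h
    rw [Finset.mem_coe, Finset.mem_filter, mem_LSf] at hl hl'
    have h1 := hl.1.1
    have h1' := hl'.1.1
    refine List.ext_getElem (by rw [h1, h1']) (fun i hi hi' => ?_)
    have h2 := congrFun h ⟨i, by omega⟩
    simp only at h2
    rw [List.getD_eq_getElem _ _ hi, List.getD_eq_getElem _ _ hi'] at h2
    exact h2

/-- not in the obstacle -/
def NA (a b : ℝ) (v : Pt) : Prop := v ∉ HA a b 0

/-- the first two points on the side of the obstacle are not border points -/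
theorem not_brd {a b : ℝ} (hm : 0 < mx a b) {k : ℤ} (hk : k = 1 ∨ k = 2) :
    ¬ Brd (HA a b 0) (HA a b 0)ᶜ (k • fx a b) := by
  rintro ⟨-, p, -, hf, hd, u, hu, hpu⟩
  have hu' : ht a b u ≤ 0 := not_lt.1 hu
  have h1 := ht_D a b u p
  rw [D_comm u p] at h1
  have h2 : mx a b * (D p u : ℝ) ≤ mx a b * 2 :=
    mul_le_mul_of_nonneg_left (by exact_mod_cast hpu) hm.le
  have h3 : ht a b p ≤ 2 * mx a b := by linarith
  -- the only far point next to `k f` is `3 f`
  have h4 : p = (3 : ℤ) • fx a b := by
    obtain ⟨p1, p2⟩ := p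
    unfold far at hf
    unfold D at hd
    simp only [Prod.smul_fst, Prod.smul_snd, smul_eq_mul] at hd hf
    have e : (3 : ℤ) • fx a b = (3 * (fx a b).1, 3 * (fx a b).2) := rfl
    rw [e, Prod.mk.injEq]
    rw [Int.abs_eq_natAbs, Int.abs_eq_natAbs] at hf
    rcases fx_cases a b with h2 | h2 | h2 | h2 <;> rw [h2] at hd ⊢ <;> simp only at hd ⊢ <;>
      rcases hk with rfl | rfl <;> omega
  have h5 : ht a b p = 3 * mx a b := by
    rw [h4, ← ht_fx a b]
    unfold ht
    simp only [Prod.smul_fst, Prod.smul_snd, smul_eq_mul, Int.cast_mul]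
    push_cast
    ring
  linarith

/-- prepending two steps -/
theorem prep {a b : ℝ} (hm : 0 < mx a b) (w n : ℕ) :
    ((LSf n).filter (OkS (HA a b 0) (fun _ => True) w)).card ≤ TQ (NA a b) (n + 2)
    := by
  unfold TQ
  set f := fx a b with hf
  have hff : Un f := fx_cases a b
  refine Finset.card_le_card_of_injOn
    (fun B => (0 : Pt) :: (-f) :: B.map (fun v => v - (2 : ℤ) • f)) ?_ ?_
  · intro B hB
    rw [Finset.mem_coe, Finset.mem_filter, mem_LSf] at hB
    obtain ⟨⟨b1, b2, b3, b4⟩, -, h2, -⟩ := hB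
    rw [Finset.mem_coe, Finset.mem_filter, mem_LSf]
    have hone : ∀ k : ℤ, k = 1 ∨ k = 2 → k • f ∉ B := by
      intro k hk hmem
      rcases h2 _ hmem with h | h
      · apply h
        show 0 < ht a b _
        have : ht a b (k • f) = k * mx a b := by
          rw [← ht_fx a b, hf]
          unfold ht
          simp only [Prod.smul_fst, Prod.smul_snd, smul_eq_mul, Int.cast_mul]
          ring
        rw [this]
        have hk' : (0 : ℝ) < k := by
          rcases hk with rfl | rfl <;> norm_num
        positivity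
      · exact not_brd hm hk h
    have hht : ∀ v ∈ B, ht a b v ≤ 2 * mx a b := by
      intro v hv
      rcases h2 v hv with h | ⟨⟨u, hu, hd⟩, -⟩
      · have h3 : ht a b v ≤ 0 := not_lt.1 h
        linarith
      · have hu' : ht a b u ≤ 0 := not_lt.1 hu
        have h1 := ht_D a b u v
        rw [D_comm u v] at h1
        have h3 : mx a b * (D v u : ℝ) ≤ mx a b * 2 :=
          mul_le_mul_of_nonneg_left (by exact_mod_cast hd) hm.le
        linarith
    refine ⟨⟨?_, ?_, ?_, ?_⟩, ?_⟩
    · simp only [List.length_cons, List.length_map, b1]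
    · simp
    · obtain ⟨l, rfl⟩ : ∃ l, B = 0 :: l := by
        cases B with
        | nil => simp at b2
        | cons x l =>
          simp only [List.head?_cons, Option.some.injEq] at b2
          exact ⟨l, by rw [b2]⟩
      simp only
      rw [List.map_cons, List.isChain_cons_cons, List.isChain_cons_cons]
      refine ⟨?_, ?_, ?_⟩
      · rw [adj_iff]
        rcases hff with h | h | h | h <;> rw [h] <;> simp [Un]
      · rw [adj_iff]
        rcases hff with h | h | h | h <;> rw [h] <;> simp [Un]
      · rw [← List.map_cons (f := fun v : Pt => v - (2 : ℤ) • f), List.isChain_map]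
        refine b3.imp ?_
        intro x y hxy
        rw [adj_sub]
        exact hxy
    · rw [List.nodup_cons, List.nodup_cons]
      refine ⟨?_, ?_, ?_⟩
      · rw [List.mem_cons, List.mem_map]
        rintro (h | ⟨v, hv, h⟩)
        · have : f = 0 := by rw [← neg_eq_zero]; exact h.symm
          rcases hff with h3 | h3 | h3 | h3 <;> rw [h3] at this <;> simp at this
        · have h3 : v = (2 : ℤ) • f := sub_eq_zero.1 h
          exact hone 2 (Or.inr rfl) (h3 ▸ hv)
      · rw [List.mem_map]
        rintro ⟨v, hv, h⟩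
        have h3 : v = (1 : ℤ) • f := by
          have : v = -f + (2 : ℤ) • f := by rw [← h]; abel
          rw [this]
          abel
        exact hone 1 (Or.inl rfl) (h3 ▸ hv)
      · refine b4.map ?_
        intro x y h
        exact sub_left_injective h
    · intro v hv
      rw [List.mem_cons, List.mem_cons, List.mem_map] at hv
      show ¬ (0 < ht a b v)
      rcases hv with rfl | rfl | ⟨u, hu, rfl⟩
      · rw [ht_zero]
        exact lt_irrefl _
      · have : ht a b (-f) = - mx a b := by
          rw [← ht_fx a b, hf]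
          unfold ht
          simp only [Prod.fst_neg, Prod.snd_neg, Int.cast_neg]
          ring
        rw [this]
        linarith
      · have h3 : ht a b ((2 : ℤ) • f) = 2 * mx a b := by
          rw [← ht_fx a b, hf]
          unfold ht
          simp only [Prod.smul_fst, Prod.smul_snd, smul_eq_mul, Int.cast_mul]
          push_cast
          ring
        rw [ht_sub, h3]
        have := hht u hu
        linarith
  · intro B _ B' _ h
    simp only [List.cons.injEq, true_and] at h
    exact List.map_injective_iff.2 (fun x y hxy => sub_left_injective hxy) h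

/-- the family with one member -/
theorem famH {a b : ℝ} (hm : 0 < mx a b) (w : ℕ) :
    FamS ({()} : Finset Unit) (fun _ => HA a b 0) (fun _ => True) w 16
      (fun n => (TQ (NA a b) (n + 2) : ℝ)) := by
  refine ⟨fun _ _ => thick_HA a b 0, fun _ _ => ?_, fun n => ?_, fun n r => ?_⟩
  · show ¬ (0 < ht a b 0)
    rw [ht_zero]
    exact lt_irrefl _
  · rw [Finset.sum_singleton]
    exact_mod_cast prep hm w n
  · have h := TQ_add (NA a b) (n + 2) r
    rw [show n + 2 + 2 * r = n + 2 * r + 2 by ring] at h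
    exact_mod_cast h

/-- the constant -/
noncomputable def Kh : ℝ := 6 * 2601 * 18432 * 16 * 13824 * 16

/-- **Visits of the half-plane walk near the boundary.** -/
theorem half_tail {a b : ℝ} (hm : 0 < mx a b) (w n : ℕ) (hw : 1 ≤ w) (x : ℝ) (hx : 0 ≤ x) :
    (((W n).filter (fun ω => (∀ i, ω i ∉ HA a b 0) ∧
      Kh ^ w * (1 + x) < NS w n (HA a b 0) ω)).card : ℝ) ≤
      Real.exp (-x) * ((W n).filter (fun ω => ∀ i, ω i ∉ HA a b 0)).card := by
  set S := (W n).filter (fun ω => ∀ i, ω i ∉ HA a b 0) with hS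
  have hTS : TQ (NA a b) n ≤ S.card := (TQ_le _ n).trans (Finset.card_le_card (fun ω hω => by
    rw [Finset.mem_filter] at hω
    rw [hS, Finset.mem_filter]
    exact hω))
  have hP1 : 1 ≤ Pf w := (cnt_w w hw).2.1
  have hP : (1 : ℝ) ≤ Pf w := by exact_mod_cast hP1
  have hC : (1 : ℝ) ≤ Pf w * 16 := by linarith
  have h1 := conv S (S.card : ℝ) (fun ω => NS w n (HA a b 0) ω)
    (G3 w * ∑ e ∈ Finset.range w, Kg 16 e) (2 * G3 w) (Pf w * 16) hC (fun r hr => by
      refine ((famH hm w).tail' hw (by norm_num) r n hr (fun _ => ()) _ (fun ω hω => ?_)).trans ?_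
      · rw [Finset.mem_filter, hS, Finset.mem_filter] at hω
        exact ⟨hω.1.1, Finset.mem_singleton_self _, trivial, hω.1.2, hω.2⟩
      rw [mul_assoc]
      refine mul_le_mul_of_nonneg_left ?_ (by linarith)
      have h4 : TQ (NA a b) (n + 2) ≤ 16 * S.card := by
        calc TQ (NA a b) (n + 2) ≤ 16 ^ 1 * TQ (NA a b) n :=
              TQ_add _ n 1
          _ ≤ 16 * S.card := by rw [pow_one]; exact Nat.mul_le_mul_left _ hTS
      exact_mod_cast h4) x hx
  refine le_trans ?_ h1
  rw [Nat.cast_le]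
  refine Finset.card_le_card ?_
  intro ω hω
  rw [Finset.mem_filter] at hω ⊢
  rw [hS, Finset.mem_filter]
  refine ⟨⟨hω.1, hω.2.1⟩, lt_of_le_of_lt ?_ hω.2.2⟩
  have h2 := thr (g := 16) (by norm_num) w hw 16 16 (by norm_num)
    (le_self_pow₀ (by norm_num) (by omega)) x hx
  refine h2.trans (le_of_eq ?_)
  unfold Kh
  norm_num

end Run7.h738.BV
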