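import Pool.Agent.Run7.h738.BV.Ref
import Pool.Agent.Run7.h738.ND.Obst2

/-! # Walks which are often close to an avoided obstacle, with a reference count -/

set_option autoImplicit false

namespace Run7.h738.BV

open scoped Classical
open Pool.Agent.W840.CT hiding tail_all
open Run7.h738.ND
open Pool.Agent.TH546.SAW (W mem_W card_W)

/-- the polynomial factor -/
def G3 (w : ℕ) : ℕ := (2 * (F w + 5) + 1) ^ 2

theorem NW_leF {m : ℕ} {A : Finset Pt} {B : List Pt} (hB : B ∈ LS m)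
    (hd : ∀ v ∈ B, v ∈ A → v = 0) (w : ℕ) (hT : Thick A (m + F w)) :
    NW w A B.toFinset ≤ G3 w * (2 + ∑ e ∈ Finset.range w, (EF A B e).card) := by
  set Z : Finset Pt := {0, B.getLastD 0} ∪
    (Finset.range w).biUnion (fun e => EF A B e) with hZ
  have hZc : Z.card ≤ 2 + ∑ e ∈ Finset.range w, (EF A B e).card := by
    refine (Finset.card_union_le _ _).trans (add_le_add Finset.card_le_two ?_)
    exact Finset.card_biUnion_le
  have hsub : B.toFinset.filter (fun b => ∃ a ∈ A, D b a ≤ w) ⊆ Z.biUnion (Bx (F w + 5)) := by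
    intro b hq
    rw [Finset.mem_filter, List.mem_toFinset] at hq
    obtain ⟨hb, a, ha, hab⟩ := hq
    rw [Finset.mem_biUnion]
    by_cases hne : D b a = 0
    · have h5 := D_eq_zero hne
      have h6 := hd b hb (h5 ▸ ha)
      exact ⟨0, by simp [hZ], mem_Bx (by rw [h6, D_self]; omega)⟩
    obtain ⟨e, he⟩ : ∃ e, D b a = e + 1 := ⟨D b a - 1, by omega⟩
    have hew : e < w := by omega
    have hFe := F_le hew.le
    by_cases h0 : F e ≤ D 0 b
    swap
    · exact ⟨0, by simp [hZ], mem_Bx (by omega)⟩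
    by_cases h2 : F w + 5 ≤ D (B.getLastD 0) b
    swap
    · exact ⟨B.getLastD 0, by simp [hZ], mem_Bx (by omega)⟩
    obtain ⟨e', he', s, hs, hbs⟩ := descentG hB hd e a ha b hb he h0 (by omega)
      (fun p hp hbp => hT p hp (by
        have h3 := D_tri 0 b p
        have h4 := D_LS hB hb
        omega))
    refine ⟨s, ?_, mem_Bx (by rw [D_comm]; omega)⟩
    rw [hZ, Finset.mem_union]
    right
    rw [Finset.mem_biUnion]
    refine ⟨e', Finset.mem_range.2 (by omega), ?_⟩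
    unfold EF
    rw [Finset.mem_filter]
    refine ⟨hs, ?_⟩
    have h3 := D_tri (B.getLastD 0) s b
    rw [D_comm s b] at h3
    omega
  have h1 := Finset.card_le_card hsub
  have h3 : (Z.biUnion (Bx (F w + 5))).card ≤ Z.card * (2 * (F w + 5) + 1) ^ 2 := by
    refine Finset.card_biUnion_le.trans ?_
    rw [← smul_eq_mul, ← Finset.sum_const]
    exact Finset.sum_le_sum (fun z _ => (Bx_card _ _).le)
  unfold NW
  calc _ ≤ Z.card * (2 * (F w + 5) + 1) ^ 2 := h1.trans h3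
    _ = G3 w * Z.card := by unfold G3; ring
    _ ≤ _ := Nat.mul_le_mul_left _ hZc

/-- the walks which may enter the obstacle only by one or two steps, far from the origin, and are
not far from it -/
def OkS (A : Set Pt) (PL : Pt → Prop) (w : ℕ) (B : List Pt) : Prop :=
  PL (B.getLastD 0) ∧ (∀ v ∈ B, v ∉ A ∨ Brd A Aᶜ v) ∧ ∃ b ∈ B, ∃ a ∈ A, D b a ≤ w + 4

/-- a family of obstacles with a reference count -/
structure FamS {ι : Type} (J : Finset ι) (A : ι → Set Pt) (PL : Pt → Prop) (w g : ℕ)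
    (R : ℕ → ℝ) : Prop where
  thick : ∀ j ∈ J, ThickS (A j)
  zero : ∀ j ∈ J, (0 : Pt) ∉ A j
  cnt : ∀ n, ∑ j ∈ J, (((LSf n).filter (OkS (A j) PL w)).card : ℝ) ≤ R n
  gro : ∀ n r, R (n + 2 * r) ≤ (g : ℝ) ^ r * R n

section
variable {ι : Type} {J : Finset ι} {A : ι → Set Pt} {PL : Pt → Prop} {w g : ℕ} {R : ℕ → ℝ}

theorem FamS.fml (H : FamS J A PL w g R) (M N : ℕ) (hN : M ≤ N) :
    Fml J (fun j => trunc (A j) N) (fun j => (A j)ᶜ) PL w M g R := by
  refine ⟨fun j hj n hn B hB v hv => ?_, fun n hn => ?_, fun n r _ => H.gro n r⟩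
  · intro hvA
    rw [mem_Av] at hB
    have h1 := D_LS hB.1 hv
    have h2 := hB.2 v hv (mem_trunc hvA (by omega))
    rw [h2] at hvA
    exact H.zero j hj hvA
  · refine le_trans ?_ (H.cnt n)
    refine Finset.sum_le_sum (fun j _ => ?_)
    rw [Nat.cast_le]
    refine Finset.card_le_card ?_
    intro B hB
    rw [Finset.mem_filter] at hB ⊢
    obtain ⟨h1, h2, h3, b, hb, a, ha, hd⟩ := hB
    refine ⟨h1, h2, fun v hv => ?_, b, hb, a, (Finset.mem_filter.1 ha).2, hd⟩
    rcases h3 v hv with h | ⟨h0, p, hp, h⟩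
    · exact Or.inl h
    · exact Or.inr ⟨h0, p, (Finset.mem_filter.1 hp).2, h⟩

/-- the walk as a list: the last point -/
theorem li_last {n : ℕ} (ω : Fin (n + 1) → ℤ × ℤ) : (li ω).getLastD 0 = ω (Fin.last n) := by
  unfold li
  rw [List.range_succ, List.map_append, List.map_cons, List.map_nil]
  have h := ex_val ω (Fin.last n)
  simp only [Fin.val_last] at h
  rw [List.getLastD_eq_getLast?, List.getLast?_append, h]
  simp

/-- **The tail of the number of the visits near the obstacle.** -/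
theorem FamS.tail (H : FamS J A PL w g R) (hw : 1 ≤ w) (hg : 1 ≤ g) (r n : ℕ) (hr : 1 ≤ r)
    (sel : (Fin (n + 1) → ℤ × ℤ) → ι) :
    (4 : ℝ) ^ r * (((W n).filter (fun ω => sel ω ∈ J ∧ PL (ω (Fin.last n)) ∧
      (∀ i, ω i ∉ A (sel ω)) ∧
      G3 w * (∑ e ∈ Finset.range w, Kg g e) * r + 2 * G3 w ≤ NS w n (A (sel ω)) ω)).card : ℝ) ≤
      Pf w * R n := by
  set M := 3 ^ (w + 1) * (n + 1) with hM
  have h3w : 1 ≤ 3 ^ (w + 1) := Nat.one_le_pow _ _ (by norm_num)
  have hnM : n ≤ M := by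
    rw [hM]
    nlinarith
  set N := M + F w + 1 with hN
  have hFw : w ≤ F w := by
    unfold F
    nlinarith
  have hF := H.fml M N (by omega)
  set A' : ι → Finset Pt := fun j => trunc (A j) N with hA'
  have hRn := hF.nonneg hnM
  have hsub : (((W n).filter (fun ω => sel ω ∈ J ∧ PL (ω (Fin.last n)) ∧
      (∀ i, ω i ∉ A (sel ω)) ∧
      G3 w * (∑ e ∈ Finset.range w, Kg g e) * r + 2 * G3 w ≤ NS w n (A (sel ω)) ω)).card) ≤
      ((Finset.range w).biUnion (fun e => (Sg J A' PL n).filter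
        (fun q => Kg g e * r ≤ (EF (A' q.1) q.2 e).card))).card := by
    refine Finset.card_le_card_of_injOn
      (fun ω => (⟨sel ω, li ω⟩ : Σ _ : ι, List Pt)) ?_ ?_
    · intro ω hω
      rw [Finset.mem_coe, Finset.mem_filter, mem_W] at hω
      obtain ⟨h1, h2, h3, h4, h5⟩ := hω
      have h6 := NS_le (w := w) (A := A (sel ω)) h1 (R := N) (by omega)
      have h7 := li_avoid h1 h4 N
      have h8 := mem_Av.1 h7
      have hT : Thick (trunc (A (sel ω)) N) (n + F w) := by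
        intro p hp h0
        exact trunc_thick (H.thick _ h2) (M + F w) p hp (by omega)
      have h9 := NW_leF h8.1 h8.2 w hT
      have hG : 0 < G3 w := by unfold G3; positivity
      have h10 : G3 w * (2 + r * ∑ e ∈ Finset.range w, Kg g e) ≤
          G3 w * (2 + ∑ e ∈ Finset.range w, (EF (trunc (A (sel ω)) N) (li ω) e).card) := by
        refine le_trans (le_of_eq ?_) (h5.trans (h6.trans h9))
        ring
      have h11 := Nat.le_of_mul_le_mul_left h10 hG
      have h12 : ∑ e ∈ Finset.range w, Kg g e * r ≤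
          ∑ e ∈ Finset.range w, (EF (trunc (A (sel ω)) N) (li ω) e).card := by
        rw [← Finset.sum_mul, mul_comm]
        omega
      obtain ⟨e, he, h13⟩ := Finset.exists_le_of_sum_le ⟨0, Finset.mem_range.2 (by omega)⟩ h12
      rw [Finset.mem_coe, Finset.mem_biUnion]
      refine ⟨e, he, ?_⟩
      rw [Finset.mem_filter]
      refine ⟨?_, h13⟩
      unfold Sg
      rw [Finset.mem_sigma, mem_AP]
      refine ⟨h2, h8, ?_⟩
      show PL ((li ω).getLastD 0)
      rw [li_last]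
      exact h3
    · intro ω _ ω' _ h
      simp only [Sigma.mk.injEq, heq_eq_eq] at h
      exact li_inj h.2
  have h2 : ∀ e ∈ Finset.range w, (4 : ℝ) ^ r * (((Sg J A' PL n).filter
      (fun q => Kg g e * r ≤ (EF (A' q.1) q.2 e).card)).card : ℝ) ≤ Cc e * R n := by
    intro e he
    rw [Finset.mem_range] at he
    refine tailF hF hg e he.le r n hr ?_
    have h3 : 3 ^ (e + 1) ≤ 3 ^ (w + 1) := Nat.pow_le_pow_right (by norm_num) (by omega)
    have h4 := Nat.mul_le_mul_right (n + 1) h3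
    omega
  have h3 := hsub.trans Finset.card_biUnion_le
  have h4 : (((W n).filter (fun ω => sel ω ∈ J ∧ PL (ω (Fin.last n)) ∧
      (∀ i, ω i ∉ A (sel ω)) ∧
      G3 w * (∑ e ∈ Finset.range w, Kg g e) * r + 2 * G3 w ≤
        NS w n (A (sel ω)) ω)).card : ℝ) ≤ ∑ e ∈ Finset.range w, (((Sg J A' PL n).filter
        (fun q => Kg g e * r ≤ (EF (A' q.1) q.2 e).card)).card : ℝ) := by
    exact_mod_cast h3
  calc _ ≤ (4 : ℝ) ^ r * ∑ e ∈ Finset.range w, (((Sg J A' PL n).filter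
        (fun q => Kg g e * r ≤ (EF (A' q.1) q.2 e).card)).card : ℝ) :=
        mul_le_mul_of_nonneg_left h4 (by positivity)
    _ = ∑ e ∈ Finset.range w, (4 : ℝ) ^ r * (((Sg J A' PL n).filter
        (fun q => Kg g e * r ≤ (EF (A' q.1) q.2 e).card)).card : ℝ) := Finset.mul_sum _ _ _
    _ ≤ ∑ e ∈ Finset.range w, (Cc e : ℝ) * R n := Finset.sum_le_sum h2
    _ = Pf w * R n := by
        rw [← Finset.sum_mul]
        unfold Pf
        push_cast
        rfl

theorem FamS.tail' (H : FamS J A PL w g R) (hw : 1 ≤ w) (hg : 1 ≤ g) (r n : ℕ) (hr : 1 ≤ r)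
    (sel : (Fin (n + 1) → ℤ × ℤ) → ι) (S : Finset (Fin (n + 1) → ℤ × ℤ))
    (hS : ∀ ω ∈ S, ω ∈ W n ∧ sel ω ∈ J ∧ PL (ω (Fin.last n)) ∧ (∀ i, ω i ∉ A (sel ω)) ∧
      G3 w * (∑ e ∈ Finset.range w, Kg g e) * r + 2 * G3 w ≤ NS w n (A (sel ω)) ω) :
    (4 : ℝ) ^ r * (S.card : ℝ) ≤ Pf w * R n := by
  refine le_trans (mul_le_mul_of_nonneg_left (Nat.cast_le.2 (Finset.card_le_card ?_))
    (by positivity)) (H.tail hw hg r n hr sel)
  intro ω hω
  rw [Finset.mem_filter]
  exact hS ω hω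

end

theorem G3_pow (w : ℕ) (hw : 1 ≤ w) : G3 w ≤ 2601 ^ w := by
  have h : 2 * (F w + 5) + 1 ≤ 51 ^ w := by
    induction w, hw using Nat.le_induction with
    | base => norm_num [F]
    | succ w hw ih =>
      rw [pow_succ]
      unfold F at *
      nlinarith
  unfold G3
  calc (2 * (F w + 5) + 1) ^ 2 ≤ (51 ^ w) ^ 2 := Nat.pow_le_pow_left h 2
    _ = 2601 ^ w := by
        rw [← pow_mul, mul_comm w 2, pow_mul]
        norm_num

theorem Kg_sum {g : ℕ} (hg : 1 ≤ g) (w : ℕ) :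
    ∑ e ∈ Finset.range w, Kg g e ≤ (18432 * g) ^ w := by
  induction w with
  | zero => simp
  | succ w ih =>
    rw [Finset.sum_range_succ, pow_succ]
    unfold Kg at *
    have h1 : 1152 * 16 * g = 18432 * g := by ring
    rw [h1] at ih ⊢
    have h2 : 0 < (18432 * g) ^ w := by positivity
    nlinarith

/-- from powers of four to the exponential function -/
theorem conv {α : Type} (S : Finset α) (N : ℝ) (X : α → ℕ) (a b : ℕ)
    (C : ℝ) (hC : 1 ≤ C)
    (h : ∀ r : ℕ, 1 ≤ r → (4 : ℝ) ^ r * ((S.filter (fun s => a * r + b ≤ X s)).card : ℝ) ≤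
      C * N) (x : ℝ) (hx : 0 ≤ x) :
    ((S.filter (fun s => 2 * ((a : ℝ) + b) * (1 + Real.log C) * (1 + x) < X s)).card : ℝ) ≤
      Real.exp (-x) * N := by
  have hl : 0 ≤ Real.log C := Real.log_nonneg hC
  set r := ⌈x + Real.log C⌉₊ + 1 with hr
  have hr1 : (r : ℝ) ≤ x + Real.log C + 2 := by
    have := (Nat.ceil_lt_add_one (show 0 ≤ x + Real.log C by positivity)).le
    rw [hr]
    push_cast
    linarith
  have hr2 : x + Real.log C ≤ r := by
    have := Nat.le_ceil (x + Real.log C)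
    rw [hr]
    push_cast
    linarith
  have h1 := h r (by omega)
  have ha : (0 : ℝ) ≤ a := Nat.cast_nonneg a
  have hb : (0 : ℝ) ≤ b := Nat.cast_nonneg b
  have hthr : ((a * r + b : ℕ) : ℝ) ≤ 2 * ((a : ℝ) + b) * (1 + Real.log C) * (1 + x) := by
    push_cast
    have h2 : (r : ℝ) ≤ 2 * ((1 + Real.log C) * (1 + x)) := by
      nlinarith [mul_nonneg hl hx]
    have h3 : (1 : ℝ) ≤ (1 + Real.log C) * (1 + x) := by nlinarith [mul_nonneg hl hx]
    have h4 := mul_le_mul_of_nonneg_left h2 ha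
    have h5 := mul_le_mul_of_nonneg_left h3 hb
    nlinarith
  have h2 : ((S.filter (fun s => 2 * ((a : ℝ) + b) * (1 + Real.log C) * (1 + x) < X s)).card : ℝ)
      ≤ ((S.filter (fun s => a * r + b ≤ X s)).card : ℝ) := by
    rw [Nat.cast_le]
    refine Finset.card_le_card ?_
    intro s hs
    rw [Finset.mem_filter] at hs ⊢
    refine ⟨hs.1, ?_⟩
    have := hthr.trans hs.2.le
    exact_mod_cast this
  have h3 : Real.exp (x + Real.log C) ≤ 4 ^ r :=
    (Real.exp_le_exp.2 hr2).trans (four_pow_ge r)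
  rw [Real.exp_add, Real.exp_log (by linarith)] at h3
  set Y : ℝ := ((S.filter
    (fun s => 2 * ((a : ℝ) + b) * (1 + Real.log C) * (1 + x) < X s)).card : ℝ) with hY
  have hY0 : 0 ≤ Y := Nat.cast_nonneg _
  have h4 : Real.exp x * C * Y ≤ C * N := by
    refine le_trans ?_ h1
    exact mul_le_mul h3 h2 hY0 (by positivity)
  have h5 : Real.exp x * Y ≤ N := by
    have h6 : C * (Real.exp x * Y) ≤ C * N := by linarith
    exact le_of_mul_le_mul_left h6 (by linarith)
  rw [Real.exp_neg, ← div_eq_inv_mul, le_div_iff₀ (Real.exp_pos x), mul_comm]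
  exact h5

/-- the threshold is exponential in the width -/
theorem thr {g : ℕ} (hg : 1 ≤ g) (w : ℕ) (hw : 1 ≤ w) (C0 c : ℝ) (hC0 : 1 ≤ C0)
    (hC0c : C0 ≤ c ^ w) (x : ℝ) (hx : 0 ≤ x) :
    2 * (((G3 w * ∑ e ∈ Finset.range w, Kg g e : ℕ) : ℝ) + ((2 * G3 w : ℕ) : ℝ)) *
      (1 + Real.log (Pf w * C0)) * (1 + x) ≤
      (6 * 2601 * 18432 * g * 13824 * c) ^ w * (1 + x) := by
  refine mul_le_mul_of_nonneg_right ?_ (by positivity)
  have hP1 : 1 ≤ Pf w := (cnt_w w hw).2.1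
  have hP : (1 : ℝ) ≤ Pf w := by exact_mod_cast hP1
  have h1 : (G3 w : ℝ) ≤ 2601 ^ w := by exact_mod_cast G3_pow w hw
  have h2 : ((∑ e ∈ Finset.range w, Kg g e : ℕ) : ℝ) ≤ (18432 * g) ^ w := by
    exact_mod_cast Kg_sum hg w
  have hg' : (1 : ℝ) ≤ g := by exact_mod_cast hg
  have h3 : 1 + Real.log (Pf w * C0) ≤ 13824 ^ w * c ^ w := by
    have h4 := Real.log_le_sub_one_of_pos (show (0 : ℝ) < Pf w * C0 by positivity)
    have h5 : (Pf w : ℝ) ≤ 13824 ^ w := by exact_mod_cast Pf_pow w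
    have h7 : (Pf w : ℝ) * C0 ≤ 13824 ^ w * c ^ w :=
      mul_le_mul h5 hC0c (by linarith) (by positivity)
    linarith
  have h0 : 0 ≤ 1 + Real.log (Pf w * C0) := by
    have := Real.log_nonneg (show (1 : ℝ) ≤ Pf w * C0 by nlinarith)
    linarith
  have h18 : (1 : ℝ) ≤ (18432 * g) ^ w := one_le_pow₀ (by nlinarith)
  have h26 : (0 : ℝ) ≤ 2601 ^ w := by positivity
  have hG0 : (0 : ℝ) ≤ G3 w := Nat.cast_nonneg _
  have h4 : 2 * (((G3 w * ∑ e ∈ Finset.range w, Kg g e : ℕ) : ℝ) + ((2 * G3 w : ℕ) : ℝ)) ≤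
      6 ^ w * (2601 ^ w * (18432 * g) ^ w) := by
    have h6 : (6 : ℝ) ≤ 6 ^ w := le_self_pow₀ (by norm_num) (by omega)
    have h7 : (G3 w : ℝ) * ((∑ e ∈ Finset.range w, Kg g e : ℕ) : ℝ) ≤
        2601 ^ w * (18432 * g) ^ w := mul_le_mul h1 h2 (Nat.cast_nonneg _) h26
    have h8 : (G3 w : ℝ) ≤ 2601 ^ w * (18432 * g) ^ w := by nlinarith
    have h9 : (0 : ℝ) ≤ 2601 ^ w * (18432 * g) ^ w := by positivity
    push_cast at h7 ⊢
    calc 2 * ((G3 w : ℝ) * (∑ e ∈ Finset.range w, (Kg g e : ℝ)) + 2 * G3 w) ≤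
          6 * (2601 ^ w * (18432 * g) ^ w) := by linarith
      _ ≤ _ := mul_le_mul_of_nonneg_right h6 h9
  calc _ ≤ (6 ^ w * (2601 ^ w * (18432 * g) ^ w)) * (13824 ^ w * c ^ w) :=
        mul_le_mul h4 h3 h0 (by positivity)
    _ = (6 * 2601 * 18432 * g * 13824 * c) ^ w := by
        rw [← mul_pow, ← mul_pow, ← mul_pow, ← mul_pow]
        congr 1
        ring

end Run7.h738.BV
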