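import Pool.Agent.Run7.h738.ND.Obst

/-! # Surgeries near obstacles, with a reference count

A family of obstacles; the walks which avoid an obstacle and are often close to it are compared
with the walks which may leave the complement of the obstacle only by one or two steps, far from
the starting point, and keep their end point. -/

set_option autoImplicit false

namespace Run7.h738.BV

open scoped Classical
open Pool.Agent.W840.CT Run7.h738.ND

/-- places for surgeries far from the last point -/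
noncomputable def EF (A : Finset Pt) (B : List Pt) (e : ℕ) : Finset Pt :=
  (EE A B e).filter (fun s => 5 ≤ D (B.getLastD 0) s)

/-- the same for one code and one class at the level zero -/
noncomputable def QF (A : Finset Pt) (κ : Bool × Pt) (c : Pt) (B : List Pt) : Finset Pt :=
  (QS A κ c B).filter (fun s => 5 ≤ D (B.getLastD 0) s)

theorem EE_surg {A : Finset Pt} {B : List Pt} {e : ℕ} {s : Pt} (hs : s ∈ EE A B e) :
    ∃ κ x L, Surg B s κ x L := by
  cases e with
  | zero =>
    have h : s ∈ QQ A B := hs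
    unfold QQ at h
    exact (Finset.mem_filter.1 h).2.2
  | succ e => exact (mem_EE.1 hs).sg

theorem EE_tgt {A : Finset Pt} {B : List Pt} {e : ℕ} {s : Pt} (hs : s ∈ EE A B e) :
    ∃ p ∈ A, D s p ≤ e := by
  cases e with
  | zero =>
    have h : s ∈ QQ A B := hs
    unfold QQ at h
    exact ⟨s, (Finset.mem_filter.1 h).1, by rw [D_self]⟩
  | succ e =>
    obtain ⟨p, h1, h2⟩ := (mem_EE.1 hs).tgt
    exact ⟨p, h1.1, h2.le⟩

theorem EF_card_le {A : Finset Pt} {n : ℕ} {B : List Pt} (hB : B ∈ LS n) (e : ℕ) :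
    (EF A B e).card ≤ 25 * (n + 1) := by
  have hsub : EF A B e ⊆ B.toFinset.biUnion (fun x => box x) := by
    intro s hs
    obtain ⟨κ, x, L, hL⟩ := EE_surg (Finset.mem_filter.1 hs).1
    rw [Finset.mem_biUnion]
    refine ⟨x, List.mem_toFinset.2 hL.mx, ?_⟩
    rw [mem_box, abs_sub_comm s.1, abs_sub_comm s.2]
    exact ⟨hL.d1, hL.d2⟩
  refine (Finset.card_le_card hsub).trans (Finset.card_biUnion_le.trans ?_)
  have h1 : ∑ x ∈ B.toFinset, (box x).card = B.toFinset.card * 25 := by
    rw [Finset.sum_congr rfl (fun x _ => box_card x), Finset.sum_const, smul_eq_mul]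
  rw [h1]
  have h2 := List.toFinset_card_le B
  rw [hB.1] at h2
  omega

/-- the walks as a finset -/
noncomputable def LSf (n : ℕ) : Finset (List Pt) := (LS_finite n).toFinset

theorem mem_LSf {n : ℕ} {B : List Pt} : B ∈ LSf n ↔ B ∈ LS n := by
  unfold LSf
  rw [Set.Finite.mem_toFinset]

/-- next to the region and next to a point of the obstacle which is next to the region and far from
the origin -/
def Brd (A : Set Pt) (Rg : Set Pt) (v : Pt) : Prop :=
  (∃ u ∈ Rg, D v u ≤ 2) ∧ ∃ p ∈ A, far p ∧ D v p ≤ 1 ∧ ∃ u ∈ Rg, D p u ≤ 2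

/-- the walks which may leave the region only next to the obstacle and are not far from it -/
def Ok (A : Finset Pt) (Rg : Set Pt) (PL : Pt → Prop) (w : ℕ) (B : List Pt) : Prop :=
  PL (B.getLastD 0) ∧ (∀ v ∈ B, v ∈ Rg ∨ Brd A Rg v) ∧
    ∃ b ∈ B, ∃ a ∈ A, D b a ≤ w + 4

/-- the inserted points are close to the replaced point -/
theorem surg_two {B : List Pt} {p x : Pt} {κ : Bool × Pt} {L : List Pt} (h : Surg B p κ x L) :
    D p x ≤ 2 ∧ (κ.1 = true → D (p + κ.2) x ≤ 2) := by
  rcases h.sh with ⟨h0, h1 | h1⟩ | ⟨h0, h1, h2⟩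
  · have hc := h.ch
    rw [h1] at hc
    simp only [List.isChain_cons_cons, List.IsChain.singleton, and_true] at hc
    have e1 := adj_iff_D.1 (adj_comm hc.1)
    have e2 := adj_iff_D.1 (adj_comm hc.2)
    have e3 := D_tri (p + κ.2) p x
    exact ⟨by omega, fun _ => by omega⟩
  · have hc := h.ch
    rw [h1] at hc
    simp only [List.isChain_cons_cons, List.IsChain.singleton, and_true] at hc
    have e1 := adj_iff_D.1 (adj_comm hc.1)
    have e2 := adj_iff_D.1 (adj_comm hc.2)
    have e3 := D_tri p (p + κ.2) x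
    exact ⟨by omega, fun _ => by omega⟩
  · refine ⟨?_, fun h3 => by rw [h0] at h3; exact absurd h3 (by simp)⟩
    have c1 := h.c1
    have c2 := h.c2
    rw [h1]
    unfold D
    simp only [Prod.fst_add, Prod.snd_add]
    rw [abs_le] at c1 c2
    omega

/-- the walks which avoid `A`, with a condition on the last point -/
noncomputable def AP (A : Finset Pt) (PL : Pt → Prop) (n : ℕ) : Finset (List Pt) :=
  (Av A n).filter (fun B => PL (B.getLastD 0))

theorem mem_AP {A : Finset Pt} {PL : Pt → Prop} {n : ℕ} {B : List Pt} :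
    B ∈ AP A PL n ↔ (B ∈ LS n ∧ ∀ v ∈ B, v ∈ A → v = 0) ∧ PL (B.getLastD 0) := by
  unfold AP
  rw [Finset.mem_filter, mem_Av]

/-- **The lowest level.** -/
theorem base (A : Finset Pt) (Rg : Set Pt) (PL : Pt → Prop) (w : ℕ) (κ : Bool × Pt) (c : Pt)
    (r n : ℕ) (hr : 1 ≤ r) (hreg : ∀ B ∈ Av A n, ∀ v ∈ B, v ∈ Rg) :
    ∑ B ∈ AP A PL n, (QF A κ c B).card.choose r ≤
      ((LSf (n + (if κ.1 = true then 2 else 0) * r)).filter (Ok A Rg PL w)).card := by
  have h1 : ((AP A PL n).sigma (fun B => (QF A κ c B).powersetCard r)).card =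
      ∑ B ∈ AP A PL n, (QF A κ c B).card.choose r := by
    rw [Finset.card_sigma]
    exact Finset.sum_congr rfl (fun B _ => Finset.card_powersetCard _ _)
  rw [← h1]
  refine Finset.card_le_card_of_injOn (fun q => nw q.1 κ q.2) ?_ ?_
  · rintro ⟨B, T⟩ hq
    rw [Finset.mem_coe, Finset.mem_sigma, mem_AP, Finset.mem_powersetCard] at hq
    obtain ⟨⟨⟨hB, hA⟩, hPL⟩, hT, hc⟩ := hq
    simp only at hB hA hPL hT hc
    have hav : B ∈ Av A n := mem_Av.2 ⟨hB, hA⟩
    obtain ⟨g1, g2, g3, g4⟩ := id hB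
    have hT' : T ⊆ QS A κ c B := hT.trans (Finset.filter_subset _ _)
    have F := fam_of hT' hA
    have hf : ∀ p ∈ T, 5 ≤ D (B.getLastD 0) p := fun p hp => (Finset.mem_filter.1 (hT hp)).2
    have hp : ∀ p ∈ T, p ∈ A ∧ cls p = c ∧ far p ∧ ∃ x L, Surg B p κ x L := by
      intro p hp
      exact Finset.mem_filter.1 (hT' hp)
    have hlast := getLastD_congr (fam_last F hf)
    rw [Finset.mem_coe, Finset.mem_filter, mem_LSf]
    refine ⟨⟨?_, ?_, F.chain g3 g4, F.nodup g4⟩, ?_, ?_, ?_⟩
    · rw [F.length g4, g1, hc]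
      ring
    · exact F.head g2 (fun p h => (hp p h).2.2.1)
    · rw [hlast]
      exact hPL
    · intro v hv
      rcases F.mem_nw hv with h | ⟨p, h1, h2⟩
      · exact Or.inl (hreg B hav v h)
      · have hx := hreg B hav _ (F.sp h1).mx
        obtain ⟨t1, t2⟩ := surg_two (F.sp h1)
        refine Or.inr ⟨⟨_, hx, ?_⟩, p, (hp p h1).1, (hp p h1).2.2.1, ?_, _, hx, t1⟩
        · rcases h2 with h2 | ⟨h0, h2⟩
          · rw [h2]
            exact t1
          · rw [h2]
            exact t2 h0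
        · rcases h2 with h2 | ⟨h0, h2⟩
          · rw [h2, D_self]
            omega
          · rw [h2, D_comm]
            exact (adj_iff_D.1 (adj_add (p := p) ((F.sp h1).un h0))).le
    · have hne : T.Nonempty := by
        rw [← Finset.card_pos]
        omega
      obtain ⟨p, h1⟩ := hne
      exact ⟨p, F.p_mem_nw h1, p, (hp p h1).1, by rw [D_self]; omega⟩
  · rintro ⟨B, T⟩ hq ⟨B', T'⟩ hq' h
    rw [Finset.mem_coe, Finset.mem_sigma, mem_AP, Finset.mem_powersetCard] at hq hq'
    obtain ⟨⟨⟨-, hA⟩, -⟩, hT, -⟩ := hq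
    obtain ⟨⟨⟨-, hA'⟩, -⟩, hT', -⟩ := hq'
    simp only at h hT hT' hA hA'
    replace hT := hT.trans (Finset.filter_subset _ _)
    replace hT' := hT'.trans (Finset.filter_subset _ _)
    have e1 := recover hT hA
    have e2 := recover hT' hA'
    rw [h, e2] at e1
    subst e1
    have d1 := (fam_of hT hA).decode
    have d2 := (fam_of hT' hA').decode
    rw [h, d2] at d1
    subst d1
    rfl

/-- **The weighted inequality between two levels.** -/
theorem weighF (A : Finset Pt) (PL : Pt → Prop) (e : ℕ) (κ : Bool × Pt) (c : Pt) (r n : ℕ) :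
    ∑ B ∈ AP A PL n, (QE A e κ c B).card.choose r ≤
      ∑ B ∈ AP A PL (n + (if κ.1 = true then 2 else 0) * r),
        (4 * (EF A B e).card).choose r := by
  set n' := n + (if κ.1 = true then 2 else 0) * r with hn'
  have h1 : ((AP A PL n).sigma (fun B => (QE A e κ c B).powersetCard r)).card =
      ∑ B ∈ AP A PL n, (QE A e κ c B).card.choose r := by
    rw [Finset.card_sigma]
    exact Finset.sum_congr rfl (fun B _ => Finset.card_powersetCard _ _)
  have h2 : ((AP A PL n').sigma (fun B => (NN (EF A B e)).powersetCard r)).card ≤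
      ∑ B ∈ AP A PL n', (4 * (EF A B e).card).choose r := by
    rw [Finset.card_sigma]
    refine Finset.sum_le_sum (fun B _ => ?_)
    rw [Finset.card_powersetCard]
    exact Nat.choose_le_choose r (NN_card _)
  rw [← h1]
  refine le_trans ?_ h2
  refine Finset.card_le_card_of_injOn
    (fun q => (⟨nw q.1 κ q.2, q.2⟩ : Σ _ : List Pt, Finset Pt)) ?_ ?_
  · rintro ⟨B, T⟩ hq
    rw [Finset.mem_coe, Finset.mem_sigma, mem_AP, Finset.mem_powersetCard] at hq
    obtain ⟨⟨⟨hB, hav⟩, hPL⟩, hT, hc⟩ := hq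
    simp only at hB hav hPL hT hc
    obtain ⟨g1, g2, g3, -⟩ := next hB hav hT
    have F := fam_QE hT
    have hE : ∀ s ∈ T, IsE A B (e + 1) s := fun s hs =>
      mem_EE.1 (Finset.mem_filter.1 (hT hs)).1
    have hlast := getLastD_congr (fam_last F (fun p hp => by have := (hE p hp).f1; omega))
    rw [Finset.mem_coe, Finset.mem_sigma, mem_AP, Finset.mem_powersetCard]
    refine ⟨⟨⟨?_, g2⟩, ?_⟩, ?_, hc⟩
    · rw [hc] at g1
      exact g1
    · show PL ((nw B κ T).getLastD 0)
      rw [hlast]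
      exact hPL
    · intro s hs
      obtain ⟨s', hs', ha⟩ := g3 s hs
      refine mem_NN (s' := s') ?_ ha
      unfold EF
      rw [Finset.mem_filter]
      refine ⟨hs', ?_⟩
      show 5 ≤ D ((nw B κ T).getLastD 0) s'
      rw [hlast]
      have h3 := (hE s hs).f1
      have h4 := D_tri (B.getLastD 0) s' s
      have h5 := adj_iff_D.1 ha
      rw [D_comm s' s] at h4
      omega
  · rintro ⟨B, T⟩ hq ⟨B', T'⟩ hq' h
    rw [Finset.mem_coe, Finset.mem_sigma, mem_AP, Finset.mem_powersetCard] at hq hq'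
    obtain ⟨⟨⟨hB, hav⟩, -⟩, hT, hc⟩ := hq
    obtain ⟨⟨⟨hB', hav'⟩, -⟩, hT', hc'⟩ := hq'
    simp only [Sigma.mk.injEq, heq_eq_eq] at h hB hav hT hB' hav' hT'
    obtain ⟨e1, e2⟩ := h
    subst e2
    have d1 := (next hB hav hT).2.2.2
    have d2 := (next hB' hav' hT').2.2.2
    rw [e1, d2] at d1
    rw [d1]

/-- a family of obstacles with a reference count -/
structure Fml {ι : Type} (J : Finset ι) (A : ι → Finset Pt) (Rg : ι → Set Pt) (PL : Pt → Prop)
    (w M g : ℕ) (R : ℕ → ℝ) : Prop where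
  reg : ∀ j ∈ J, ∀ n ≤ M, ∀ B ∈ Av (A j) n, ∀ v ∈ B, v ∈ Rg j
  cnt : ∀ n ≤ M, ∑ j ∈ J, (((LSf n).filter (Ok (A j) (Rg j) PL w)).card : ℝ) ≤ R n
  gro : ∀ n r, n + 2 * r ≤ M → R (n + 2 * r) ≤ (g : ℝ) ^ r * R n

/-- the pairs of an obstacle and a walk which avoids it -/
noncomputable def Sg {ι : Type} (J : Finset ι) (A : ι → Finset Pt) (PL : Pt → Prop) (n : ℕ) :
    Finset (Σ _ : ι, List Pt) := J.sigma (fun j => AP (A j) PL n)

/-- the constants -/
def Kg (g e : ℕ) : ℕ := (1152 * 4 * g) * (1152 * 16 * g) ^ e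

theorem Kg_pos {g : ℕ} (hg : 1 ≤ g) (e : ℕ) : 25 < Kg g e := by
  unfold Kg
  have : 1 ≤ (1152 * 16 * g) ^ e := Nat.one_le_pow _ _ (by omega)
  nlinarith

theorem Kg_succ (g e : ℕ) : Kg g (e + 1) = 1152 * (16 * g * Kg g e) := by
  unfold Kg
  rw [pow_succ]
  ring

section
variable {ι : Type} {J : Finset ι} {A : ι → Finset Pt} {Rg : ι → Set Pt} {PL : Pt → Prop}
  {w M g : ℕ} {R : ℕ → ℝ}

theorem Fml.nonneg (H : Fml J A Rg PL w M g R) {n : ℕ} (hn : n ≤ M) : 0 ≤ R n :=
  (Finset.sum_nonneg (fun _ _ => Nat.cast_nonneg _)).trans (H.cnt n hn)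

theorem Fml.gro' (H : Fml J A Rg PL w M g R) (hg : 1 ≤ g) {n r : ℕ} (h : n + 2 * r ≤ M)
    (b : Bool) : R (n + (if b = true then 2 else 0) * r) ≤ (g : ℝ) ^ r * R n := by
  split_ifs with hb
  · exact H.gro n r h
  · rw [zero_mul, add_zero]
    have h1 := H.nonneg (n := n) (by omega)
    have h2 : (1 : ℝ) ≤ (g : ℝ) ^ r := one_le_pow₀ (by exact_mod_cast hg)
    nlinarith

/-- pigeonhole over the codes and the classes -/
theorem pigeon {α : Type} (S : Finset α) (X : α → ℕ) (Y : (Bool × Pt) × Pt → α → ℕ)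
    (hXY : ∀ a ∈ S, X a ≤ ∑ q ∈ codes ×ˢ classes, Y q a) (k r : ℕ)
    (C : ℝ) (h : ∀ q ∈ codes ×ˢ classes,
      (4 : ℝ) ^ r * ((S.filter (fun a => k * r ≤ Y q a)).card : ℝ) ≤ C) :
    (4 : ℝ) ^ r * ((S.filter (fun a => 1152 * k * r ≤ X a)).card : ℝ) ≤ 1152 * C := by
  have hsub : S.filter (fun a => 1152 * k * r ≤ X a) ⊆
      (codes ×ˢ classes).biUnion (fun q => S.filter (fun a => k * r ≤ Y q a)) := by
    intro a ha
    rw [Finset.mem_filter] at ha
    obtain ⟨h1, h2⟩ := ha
    have h4 := h2.trans (hXY a h1)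
    by_contra hcon
    simp only [Finset.mem_biUnion, not_exists, not_and] at hcon
    have h5 : ∀ q ∈ codes ×ˢ classes, Y q a < k * r := by
      intro q hq
      by_contra h
      exact hcon q hq (Finset.mem_filter.2 ⟨h1, by omega⟩)
    have h6 : ∑ q ∈ codes ×ˢ classes, Y q a < 1152 * (k * r) := by
      calc _ < ∑ q ∈ codes ×ˢ classes, k * r := by
            refine Finset.sum_lt_sum_of_nonempty ?_ h5
            rw [← Finset.card_pos, card_cc]
            norm_num
        _ = _ := by rw [Finset.sum_const, card_cc, smul_eq_mul]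
    have h7 : 1152 * k * r = 1152 * (k * r) := by ring
    omega
  have h1 : ((S.filter (fun a => 1152 * k * r ≤ X a)).card : ℝ) ≤
      ∑ q ∈ codes ×ˢ classes, ((S.filter (fun a => k * r ≤ Y q a)).card : ℝ) := by
    exact_mod_cast (Finset.card_le_card hsub).trans Finset.card_biUnion_le
  calc (4 : ℝ) ^ r * ((S.filter (fun a => 1152 * k * r ≤ X a)).card : ℝ)
      ≤ 4 ^ r * ∑ q ∈ codes ×ˢ classes, ((S.filter (fun a => k * r ≤ Y q a)).card : ℝ) :=
        mul_le_mul_of_nonneg_left h1 (by positivity)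
    _ = ∑ q ∈ codes ×ˢ classes, 4 ^ r * ((S.filter (fun a => k * r ≤ Y q a)).card : ℝ) :=
        Finset.mul_sum _ _ _
    _ ≤ ∑ q ∈ codes ×ˢ classes, C := Finset.sum_le_sum h
    _ = 1152 * C := by
        rw [Finset.sum_const, card_cc, nsmul_eq_mul]
        norm_num

/-- from the binomial moment to the tail -/
theorem cheb {α : Type} (S : Finset α) (Y : α → ℕ) (k r : ℕ) (hk : 1 ≤ k) :
    ((S.filter (fun a => k * r ≤ Y a)).card : ℝ) * (k : ℝ) ^ r ≤
      ∑ a ∈ S, ((Y a).choose r : ℝ) := by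
  have h : (S.filter (fun a => k * r ≤ Y a)).card * k ^ r ≤ ∑ a ∈ S, (Y a).choose r := by
    calc (S.filter (fun a => k * r ≤ Y a)).card * k ^ r =
          ∑ a ∈ S.filter (fun a => k * r ≤ Y a), k ^ r := by
          rw [Finset.sum_const, smul_eq_mul]
      _ ≤ ∑ a ∈ S.filter (fun a => k * r ≤ Y a), (Y a).choose r := by
          refine Finset.sum_le_sum (fun a ha => ?_)
          rw [Finset.mem_filter] at ha
          exact (choose_ge k r hk).trans (Nat.choose_le_choose r ha.2)
      _ ≤ _ := Finset.sum_le_sum_of_subset (Finset.filter_subset _ _)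
  exact_mod_cast h

theorem large_empty (hg : 1 ≤ g) (e r n : ℕ) (hr : n + 1 < r) :
    (Sg J A PL n).filter (fun q => Kg g e * r ≤ (EF (A q.1) q.2 e).card) = ∅ := by
  rw [Finset.filter_eq_empty_iff]
  rintro ⟨j, B⟩ hq h
  unfold Sg at hq
  rw [Finset.mem_sigma, mem_AP] at hq
  have h1 := EF_card_le (A := A j) hq.2.1.1 e
  have h2 := Kg_pos hg e
  have h3 : Kg g e * r ≤ 25 * (n + 1) := h.trans h1
  have h4 : 25 * (n + 1) < Kg g e * r := by
    calc 25 * (n + 1) < 25 * r := by omega
      _ ≤ Kg g e * r := Nat.mul_le_mul_right _ h2.le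
  omega

theorem base_S (H : Fml J A Rg PL w M g R) (κ : Bool × Pt) (c : Pt) (r n : ℕ) (hr : 1 ≤ r)
    (hn : n + 2 * r ≤ M) :
    ∑ q ∈ Sg J A PL n, ((QF (A q.1) κ c q.2).card.choose r : ℝ) ≤
      R (n + (if κ.1 = true then 2 else 0) * r) := by
  unfold Sg
  rw [Finset.sum_sigma]
  have hn' : n + (if κ.1 = true then 2 else 0) * r ≤ M := by
    split_ifs <;> omega
  refine le_trans ?_ (H.cnt _ hn')
  refine Finset.sum_le_sum (fun j hj => ?_)
  have h1 := base (A j) (Rg j) PL w κ c r n hr (H.reg j hj n (by omega))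
  exact_mod_cast h1

theorem weigh_S (e : ℕ) (κ : Bool × Pt) (c : Pt) (r n : ℕ) :
    ∑ q ∈ Sg J A PL n, ((QE (A q.1) e κ c q.2).card.choose r : ℝ) ≤
      ∑ q ∈ Sg J A PL (n + (if κ.1 = true then 2 else 0) * r),
        ((4 * (EF (A q.1) q.2 e).card).choose r : ℝ) := by
  unfold Sg
  rw [Finset.sum_sigma, Finset.sum_sigma]
  refine Finset.sum_le_sum (fun j hj => ?_)
  exact_mod_cast weighF (A j) PL e κ c r n

/-- the pairs with a place for a surgery are counted by the reference count -/
theorem near_S (H : Fml J A Rg PL w M g R) {e : ℕ} (he : e ≤ w) {n : ℕ} (hn : n ≤ M) :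
    (((Sg J A PL n).filter (fun q => 1 ≤ (EF (A q.1) q.2 e).card)).card : ℝ) ≤ R n := by
  refine le_trans ?_ (H.cnt n hn)
  have h1 : ((Sg J A PL n).filter (fun q => 1 ≤ (EF (A q.1) q.2 e).card)).card ≤
      (J.sigma (fun j => (LSf n).filter (Ok (A j) (Rg j) PL w))).card := by
    refine Finset.card_le_card ?_
    rintro ⟨j, B⟩ hq
    rw [Finset.mem_filter] at hq
    obtain ⟨h1, h2⟩ := hq
    unfold Sg at h1
    rw [Finset.mem_sigma, mem_AP] at h1
    obtain ⟨hj, ⟨hB, hav⟩, hPL⟩ := h1
    simp only at hj hB hav hPL h2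
    rw [Finset.mem_sigma, Finset.mem_filter, mem_LSf]
    refine ⟨hj, hB, hPL, fun v hv => Or.inl (H.reg j hj n hn B (mem_Av.2 ⟨hB, hav⟩) v hv), ?_⟩
    obtain ⟨s, hs⟩ := Finset.card_pos.1 (show 0 < (EF (A j) B e).card by omega)
    have hs' := (Finset.mem_filter.1 hs).1
    obtain ⟨κ, x, L, hL⟩ := EE_surg hs'
    obtain ⟨p, hp, hd⟩ := EE_tgt hs'
    refine ⟨x, hL.mx, p, hp, ?_⟩
    have h3 := Surg_D hL
    have h4 := D_tri x s p
    rw [D_comm x s] at h4
    omega
  rw [Finset.card_sigma] at h1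
  exact_mod_cast h1

/-- **Few walks have many places for surgeries, with the reference count.** -/
theorem tailF (H : Fml J A Rg PL w M g R) (hg : 1 ≤ g) (e : ℕ) : e ≤ w → ∀ r n : ℕ, 1 ≤ r →
    3 ^ (e + 1) * (n + 1) ≤ M + 1 →
    (4 : ℝ) ^ r * (((Sg J A PL n).filter
      (fun q => Kg g e * r ≤ (EF (A q.1) q.2 e).card)).card : ℝ) ≤ Cc e * R n := by
  induction e with
  | zero =>
    intro he r n hr hM
    have hnM : n ≤ M := by
      have : 3 ^ (0 + 1) * (n + 1) = 3 * (n + 1) := by ring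
      omega
    have hR := H.nonneg hnM
    rcases Nat.lt_or_ge (n + 1) r with hrn | hrn
    · rw [large_empty hg 0 r n hrn, Finset.card_empty, Nat.cast_zero, mul_zero]
      positivity
    have hnr : n + 2 * r ≤ M := by
      have : 3 ^ (0 + 1) * (n + 1) = 3 * (n + 1) := by ring
      omega
    have hX : ∀ q ∈ Sg J A PL n, (EF (A q.1) q.2 0).card ≤
        ∑ p ∈ codes ×ˢ classes, (QF (A q.1) p.1 p.2 q.2).card := by
      rintro ⟨j, B⟩ -
      refine (Finset.card_le_card ?_).trans Finset.card_biUnion_le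
      intro s hs
      simp only at hs ⊢
      unfold EF at hs
      rw [Finset.mem_filter] at hs
      obtain ⟨hs, hl⟩ := hs
      have hs' : s ∈ QQ (A j) B := hs
      unfold QQ at hs'
      rw [Finset.mem_filter] at hs'
      obtain ⟨hA, hf, κ, x, L, hL⟩ := hs'
      rw [Finset.mem_biUnion]
      refine ⟨(κ, cls s), ?_, ?_⟩
      · rw [Finset.mem_product]
        constructor
        · unfold codes
          rw [Finset.mem_product, Finset.mem_product, Finset.mem_Icc, Finset.mem_Icc]
          exact ⟨Finset.mem_univ _, abs_le.1 hL.c1, abs_le.1 hL.c2⟩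
        · unfold classes cls
          rw [Finset.mem_product, Finset.mem_Ico, Finset.mem_Ico]
          simp only
          omega
      · unfold QF QS
        rw [Finset.mem_filter, Finset.mem_filter]
        exact ⟨⟨hA, rfl, hf, x, L, hL⟩, hl⟩
    have h1 := pigeon (Sg J A PL n) (fun q => (EF (A q.1) q.2 0).card)
      (fun p q => (QF (A q.1) p.1 p.2 q.2).card) hX (4 * g) r (R n) ?_
    · have e1 : Kg g 0 * r = 1152 * (4 * g) * r := by unfold Kg; ring
      rw [e1]
      have e2 : ((Cc 0 : ℕ) : ℝ) = 1152 := by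
        have : Cc 0 = 1152 := rfl
        rw [this]
        norm_num
      rw [e2]
      exact h1
    · rintro ⟨κ, c⟩ -
      simp only
      have h2 := cheb (Sg J A PL n) (fun q => (QF (A q.1) κ c q.2).card) (4 * g) r (by omega)
      have h3 := base_S H κ c r n hr hnr
      have h4 := H.gro' hg hnr κ.1
      have h5 := h2.trans (h3.trans h4)
      push_cast at h5
      rw [mul_pow] at h5
      have hgp : (0 : ℝ) < (g : ℝ) ^ r := by
        have : (0 : ℝ) < g := by exact_mod_cast hg
        positivity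
      refine le_of_mul_le_mul_left ?_ hgp
      calc (g : ℝ) ^ r * ((4 : ℝ) ^ r * (((Sg J A PL n).filter
            (fun q => 4 * g * r ≤ (QF (A q.1) κ c q.2).card)).card : ℝ)) =
            (((Sg J A PL n).filter (fun q => 4 * g * r ≤ (QF (A q.1) κ c q.2).card)).card : ℝ) *
              (4 ^ r * (g : ℝ) ^ r) := by ring
        _ ≤ _ := h5
  | succ e ih =>
    intro he r n hr hM
    have hpow : 3 ^ (e + 1 + 1) * (n + 1) = 3 ^ (e + 1) * (3 * (n + 1)) := by ring
    have h3e : 1 ≤ 3 ^ (e + 1) := Nat.one_le_pow _ _ (by norm_num)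
    have hM3 : 3 * (n + 1) ≤ M + 1 := by
      calc 3 * (n + 1) = 1 * (3 * (n + 1)) := (one_mul _).symm
        _ ≤ 3 ^ (e + 1) * (3 * (n + 1)) := Nat.mul_le_mul_right _ h3e
        _ ≤ M + 1 := by rw [← hpow]; exact hM
    have hR := H.nonneg (n := n) (by omega)
    rcases Nat.lt_or_ge (n + 1) r with hrn | hrn
    · rw [large_empty hg (e + 1) r n hrn, Finset.card_empty, Nat.cast_zero, mul_zero]
      positivity
    have hnr : n + 2 * r ≤ M := by omega
    have hX : ∀ q ∈ Sg J A PL n, (EF (A q.1) q.2 (e + 1)).card ≤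
        ∑ p ∈ codes ×ˢ classes, (QE (A q.1) e p.1 p.2 q.2).card := fun q _ =>
      (Finset.card_le_card (Finset.filter_subset _ _)).trans (EE_card_le (A q.1) q.2 e)
    have h1 := pigeon (Sg J A PL n) (fun q => (EF (A q.1) q.2 (e + 1)).card)
      (fun p q => (QE (A q.1) e p.1 p.2 q.2).card) hX (16 * g * Kg g e) r
      (12 * Cc e * R n) ?_
    · rw [Kg_succ, Cc_succ]
      push_cast
      refine h1.trans (le_of_eq ?_)
      ring
    · rintro ⟨κ, c⟩ -
      simp only
      set n' := n + (if κ.1 = true then 2 else 0) * r with hn'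
      have hn'le : n' ≤ n + 2 * r := by
        rw [hn']
        split_ifs <;> omega
      have h2 := cheb (Sg J A PL n) (fun q => (QE (A q.1) e κ c q.2).card) (16 * g * Kg g e) r
        (by have := Kg_pos hg e; nlinarith)
      have h3 := weigh_S (J := J) (A := A) (PL := PL) e κ c r n
      rw [← hn'] at h3
      set S' := (Sg J A PL n').filter (fun q => 1 ≤ (EF (A q.1) q.2 e).card) with hS'
      have h4 : ∑ q ∈ Sg J A PL n', ((4 * (EF (A q.1) q.2 e).card).choose r : ℝ) =
          ∑ q ∈ S', ((4 * (EF (A q.1) q.2 e).card).choose r : ℝ) := by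
        rw [hS']
        symm
        refine Finset.sum_subset (Finset.filter_subset _ _) ?_
        intro q hq hq'
        have h5 : (EF (A q.1) q.2 e).card = 0 := by
          by_contra hne
          exact hq' (Finset.mem_filter.2 ⟨hq, by omega⟩)
        rw [h5, mul_zero, Nat.choose_eq_zero_of_lt (by omega)]
        norm_num
      have hM' : 3 ^ (e + 1) * (n' + 1) ≤ M + 1 := by
        calc 3 ^ (e + 1) * (n' + 1) ≤ 3 ^ (e + 1) * (3 * (n + 1)) :=
              Nat.mul_le_mul_left _ (by omega)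
          _ ≤ M + 1 := by rw [← hpow]; exact hM
      have hR' := H.nonneg (n := n') (by omega)
      have hCc : (1 : ℝ) ≤ Cc e := by
        have : 1 ≤ Cc e := Nat.mul_pos (by norm_num) (by positivity)
        exact_mod_cast this
      have hKp : 1 ≤ Kg g e := by
        have := Kg_pos hg e
        omega
      have h6 := sum_choose S' (fun q => (EF (A q.1) q.2 e).card) (Kg g e) r hKp
        (Cc e * R n') (fun i => by
          rcases Nat.eq_zero_or_pos i with hi | hi
          · subst hi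
            rw [pow_zero, one_mul]
            have h7 := near_S H (show e ≤ w by omega) (n := n') (by omega)
            rw [← hS'] at h7
            have h8 : ((S'.filter (fun a => Kg g e * 0 ≤ (EF (A a.1) a.2 e).card)).card : ℝ) ≤
                (S'.card : ℝ) := by exact_mod_cast Finset.card_filter_le _ _
            nlinarith
          · have h7 := ih (by omega) i n' hi hM'
            refine le_trans (mul_le_mul_of_nonneg_left ?_ (by positivity)) h7
            rw [Nat.cast_le]
            refine Finset.card_le_card ?_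
            rw [hS']
            exact Finset.filter_subset_filter _ (Finset.filter_subset _ _))
      rw [h4] at h3
      have h7 := H.gro' hg hnr κ.1
      rw [← hn'] at h7
      have hKg : (0 : ℝ) < Kg g e := by exact_mod_cast hKp
      have h8 : (((Sg J A PL n).filter (fun q => 16 * g * Kg g e * r ≤
          (QE (A q.1) e κ c q.2).card)).card : ℝ) * ((16 * g * Kg g e : ℕ) : ℝ) ^ r ≤
          12 * (Cc e * ((g : ℝ) ^ r * R n)) * (4 * (Kg g e : ℝ)) ^ r := by
        refine h2.trans (h3.trans (h6.trans ?_))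
        refine mul_le_mul_of_nonneg_right ?_ (by positivity)
        refine mul_le_mul_of_nonneg_left ?_ (by norm_num)
        exact mul_le_mul_of_nonneg_left h7 (by positivity)
      have e1 : (((16 * g * Kg g e : ℕ)) : ℝ) ^ r =
          4 ^ r * ((g : ℝ) ^ r * (4 * (Kg g e : ℝ)) ^ r) := by
        rw [← mul_pow, ← mul_pow]
        congr 1
        push_cast
        ring
      rw [e1] at h8
      have hgp : (0 : ℝ) < g := by exact_mod_cast hg
      have h10 : (0 : ℝ) < (g : ℝ) ^ r * (4 * (Kg g e : ℝ)) ^ r := by positivity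
      refine le_of_mul_le_mul_right ?_ h10
      calc (4 : ℝ) ^ r * (((Sg J A PL n).filter (fun q => 16 * g * Kg g e * r ≤
            (QE (A q.1) e κ c q.2).card)).card : ℝ) * ((g : ℝ) ^ r * (4 * (Kg g e : ℝ)) ^ r) =
            (((Sg J A PL n).filter (fun q => 16 * g * Kg g e * r ≤
            (QE (A q.1) e κ c q.2).card)).card : ℝ) *
              (4 ^ r * ((g : ℝ) ^ r * (4 * (Kg g e : ℝ)) ^ r)) := by ring
        _ ≤ _ := h8
        _ = _ := by ring

end

end Run7.h738.BV
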