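import Pool.Agent.Run7.h738.BV.Nr

/-! # Near-maximisers of steep functions along the walk -/

set_option autoImplicit false

namespace Run7.h738.BV

open scoped Classical
open Pool.Agent.W840.CT hiding tail_all
open Run7.h738.ND
open Pool.Agent.TH546.SAW (W mem_W card_W)

/-- steep functions -/
structure Steep (h : Pt → ℝ) : Prop where
  lip : ∀ p q, h q ≤ h p + D p q
  two : ∀ p, ∃ p1 p2, p1 ≠ p2 ∧ D p p1 = 1 ∧ D p p2 = 1 ∧ h p ≤ h p1 ∧ h p ≤ h p2
  up : ∀ (p : Pt) (w : ℕ), ∃ q, D p q ≤ w ∧ h p + 0.7 * w ≤ h q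

/-- the obstacles -/
def SK (h : Pt → ℝ) (k : ℕ) : Set Pt := {v | h 0 + k < h v}

theorem thick_SK {h : Pt → ℝ} (H : Steep h) (k : ℕ) : ThickS (SK h k) := by
  intro p hp
  have hp' : h 0 + k < h p := hp
  obtain ⟨p1, p2, h12, d1, d2, e1, e2⟩ := H.two p
  exact ⟨p1, lt_of_lt_of_le hp' e1, p2, lt_of_lt_of_le hp' e2, h12, d1, d2⟩

/-- for every walk few obstacles are near -/
theorem fewS {h : Pt → ℝ} (H : Steep h) (J : Finset ℕ) (PL : Pt → Prop) (w : ℕ) {B : List Pt}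
    (hB : B ≠ []) : (J.filter (fun k => OkS (SK h k) PL w B)).card ≤ w + 7 := by
  obtain ⟨v0, h0, hmax⟩ := Finset.exists_max_image B.toFinset h
    (by rwa [List.toFinset_nonempty_iff])
  set Mx := h v0 - h 0 with hMx
  set q := ⌊Mx⌋₊ with hq
  have hsub : J.filter (fun k => OkS (SK h k) PL w B) ⊆ Finset.Ico (q - 2) (q + w + 5) := by
    intro k hk
    rw [Finset.mem_filter] at hk
    obtain ⟨-, -, h1, v, hv, p, hp, hd⟩ := hk
    have e1 : Mx ≤ k + 2 := by
      rcases h1 v0 (List.mem_toFinset.1 h0) with h2 | ⟨⟨u, hu, hdu⟩, -⟩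
      · have h3 : h v0 ≤ h 0 + k := not_lt.1 h2
        linarith
      · have h2 : h u ≤ h 0 + k := not_lt.1 hu
        have h3 := H.lip u v0
        rw [D_comm u v0] at h3
        have h4 : (D v0 u : ℝ) ≤ 2 := by exact_mod_cast hdu
        linarith
    have e2 : (k : ℝ) < Mx + (w + 4) := by
      have h2 : h 0 + k < h p := hp
      have h3 := H.lip v p
      have h4 : (D v p : ℝ) ≤ ((w + 4 : ℕ) : ℝ) := by exact_mod_cast hd
      have h5 := hmax v (List.mem_toFinset.2 hv)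
      push_cast at h4
      linarith
    rw [Finset.mem_Ico]
    constructor
    · have h2 : Mx ≤ ((k + 2 : ℕ) : ℝ) := by
        push_cast
        exact e1
      have h3 : q ≤ k + 2 := by
        rw [hq]
        exact Nat.floor_le_of_le h2
      omega
    · have h3 : Mx < q + 1 := Nat.lt_floor_add_one _
      have h4 : (k : ℝ) < ((q + w + 5 : ℕ) : ℝ) := by
        push_cast
        linarith
      exact_mod_cast h4
  refine (Finset.card_le_card hsub).trans ?_
  rw [Nat.card_Ico]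
  omega

/-- double counting -/
theorem cntS {h : Pt → ℝ} (H : Steep h) (J : Finset ℕ) (PL : Pt → Prop) (w n : ℕ)
    (T : Finset (List Pt)) (hT : ∀ B ∈ LSf n, PL (B.getLastD 0) → B ∈ T) :
    ∑ k ∈ J, (((LSf n).filter (OkS (SK h k) PL w)).card : ℝ) ≤
      (((w + 7) * T.card : ℕ) : ℝ) := by
  rw [← Nat.cast_sum, Nat.cast_le]
  have h1 : ∑ k ∈ J, ((LSf n).filter (OkS (SK h k) PL w)).card =
      ∑ B ∈ LSf n, (J.filter (fun k => OkS (SK h k) PL w B)).card := by
    simp only [Finset.card_filter]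
    exact Finset.sum_comm
  rw [h1]
  calc ∑ B ∈ LSf n, (J.filter (fun k => OkS (SK h k) PL w B)).card
      ≤ ∑ B ∈ LSf n, (if PL (B.getLastD 0) then (w + 7) else 0) := by
        refine Finset.sum_le_sum (fun B hB => ?_)
        split_ifs with h2
        · refine fewS H J PL w ?_
          rw [mem_LSf] at hB
          intro h0
          have := hB.1
          rw [h0] at this
          simp at this
        · rw [Nat.le_zero, Finset.card_eq_zero, Finset.filter_eq_empty_iff]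
          intro k _ hk
          exact h2 hk.1
    _ = (w + 7) * ((LSf n).filter (fun B => PL (B.getLastD 0))).card := by
        rw [← Finset.sum_filter, Finset.sum_const, smul_eq_mul, mul_comm]
    _ ≤ (w + 7) * T.card := by
        refine Nat.mul_le_mul_left _ (Finset.card_le_card ?_)
        intro B hB
        rw [Finset.mem_filter] at hB
        exact hT B hB.1 hB.2

theorem famS {h : Pt → ℝ} (H : Steep h) (J : Finset ℕ) (w : ℕ) :
    FamS J (SK h) (fun _ => True) w 16 (fun n => (((w + 7) * (LSf n).card : ℕ) : ℝ)) := by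
  refine ⟨fun k _ => thick_SK H k, fun k _ => ?_, fun n => ?_, fun n r => ?_⟩
  · show ¬ (h 0 + k < h 0)
    have : (0 : ℝ) ≤ k := Nat.cast_nonneg _
    linarith
  · exact cntS H J (fun _ => True) w n (LSf n) (fun B hB _ => hB)
  · have h := LS_add n r
    rw [Set.ncard_eq_toFinset_card _ (LS_finite _), Set.ncard_eq_toFinset_card _ (LS_finite _)] at h
    have h' : (LSf (n + 2 * r)).card ≤ 16 ^ r * (LSf n).card := h
    have h2 : (w + 7) * (LSf (n + 2 * r)).card ≤ 16 ^ r * ((w + 7) * (LSf n).card) := by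
      calc _ ≤ (w + 7) * (16 ^ r * (LSf n).card) := Nat.mul_le_mul_left _ h'
        _ = _ := by ring
    exact_mod_cast h2

/-- the highest value -/
noncomputable def topS (h : Pt → ℝ) {n : ℕ} (ω : Fin (n + 1) → ℤ × ℤ) : ℝ :=
  (Finset.univ : Finset (Fin (n + 1))).sup' Finset.univ_nonempty (fun i => h (ω i))

theorem le_topS (h : Pt → ℝ) {n : ℕ} (ω : Fin (n + 1) → ℤ × ℤ) (i : Fin (n + 1)) :
    h (ω i) ≤ topS h ω :=
  Finset.le_sup' (fun i => h (ω i)) (Finset.mem_univ i)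

theorem topS_mem (h : Pt → ℝ) {n : ℕ} (ω : Fin (n + 1) → ℤ × ℤ) : ∃ i, topS h ω = h (ω i) := by
  obtain ⟨i, -, h⟩ := Finset.exists_mem_eq_sup' (Finset.univ_nonempty (α := Fin (n + 1)))
    (fun i => h (ω i))
  exact ⟨i, h⟩

/-- number of near-maximisers -/
noncomputable def nS (h : Pt → ℝ) (y : ℝ) {n : ℕ} (ω : Fin (n + 1) → ℤ × ℤ) : ℕ :=
  ((Finset.univ : Finset (Fin (n + 1))).filter (fun i => ∀ j, h (ω j) ≤ h (ω i) + y)).card

/-- the constant -/
noncomputable def Kb : ℝ := 6 * 2601 * 18432 * 16 * 13824 * 8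

theorem Kb_gt : 1 < Kb := by
  unfold Kb
  norm_num

theorem w7 (w : ℕ) (hw : 1 ≤ w) : w + 7 ≤ 8 ^ w := by
  induction w, hw using Nat.le_induction with
  | base => norm_num
  | succ w hw ih =>
    rw [pow_succ]
    omega

/-- the width which belongs to the height `y` -/
noncomputable def vy (y : ℝ) : ℕ := ⌈(y + 1) / 0.7⌉₊

theorem vy_pos {y : ℝ} (hy : 0 ≤ y) : 1 ≤ vy y := by
  unfold vy
  rw [Nat.one_le_ceil_iff]
  positivity

theorem vy_ge (y : ℝ) : y + 1 ≤ 0.7 * vy y := by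
  have h2 : (y + 1) / 0.7 ≤ ⌈(y + 1) / 0.7⌉₊ := Nat.le_ceil _
  rw [div_le_iff₀ (by norm_num)] at h2
  unfold vy
  linarith

theorem vy_le {y : ℝ} (hy : 0 ≤ y) : (vy y : ℝ) ≤ 3 * (1 + y) := by
  unfold vy
  have h := (Nat.ceil_lt_add_one (show 0 ≤ (y + 1) / 0.7 by positivity)).le
  have h2 : (y + 1) / 0.7 ≤ 2 * (y + 1) := by
    rw [div_le_iff₀ (by norm_num)]
    linarith
  linarith

theorem Kpow3 {K : ℝ} (hK : 1 < K) {y : ℝ} (hy : 0 ≤ y) : K ^ vy y ≤ (K ^ 3) ^ (1 + y) := by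
  calc K ^ vy y = K ^ ((vy y : ℕ) : ℝ) := (Real.rpow_natCast K _).symm
    _ ≤ K ^ (3 * (1 + y)) := Real.rpow_le_rpow_of_exponent_le hK.le (vy_le hy)
    _ = (K ^ (3 : ℝ)) ^ (1 + y) := Real.rpow_mul (by linarith) _ _
    _ = (K ^ 3) ^ (1 + y) := by
        congr 1
        exact_mod_cast Real.rpow_natCast K 3

/-- the obstacle of a walk and its sites -/
theorem selS {h : Pt → ℝ} (H : Steep h) {n : ℕ} {ω : Fin (n + 1) → ℤ × ℤ}
    (hω : SW n ω) {y : ℝ} :
    ⌈topS h ω - h 0⌉₊ ∈ Finset.range (n + 1) ∧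
    (∀ i, ω i ∉ SK h ⌈topS h ω - h 0⌉₊) ∧
    nS h y ω ≤ NS (vy y) n (SK h ⌈topS h ω - h 0⌉₊) ω := by
  set k := ⌈topS h ω - h 0⌉₊ with hk
  have h0 : 0 ≤ topS h ω - h 0 := by
    have h1 := le_topS h ω 0
    have h2 : ω 0 = 0 := hω.1
    rw [h2] at h1
    linarith
  have hk1 : topS h ω - h 0 ≤ k := Nat.le_ceil _
  have hk2 : (k : ℝ) < topS h ω - h 0 + 1 := Nat.ceil_lt_add_one h0
  refine ⟨?_, ?_, ?_⟩
  · rw [Finset.mem_range, Nat.lt_succ_iff, hk, Nat.ceil_le]
    obtain ⟨i, hi⟩ := topS_mem h ω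
    rw [hi]
    have h1 := H.lip 0 (ω i)
    have h2 : (D 0 (ω i) : ℝ) ≤ n := by exact_mod_cast D_SW hω i
    linarith
  · intro i hi
    have h1 : h 0 + (k : ℝ) < h (ω i) := hi
    have := le_topS h ω i
    linarith
  · unfold nS NS
    refine Finset.card_le_card ?_
    intro i hi
    rw [Finset.mem_filter] at hi ⊢
    refine ⟨hi.1, ?_⟩
    obtain ⟨q, hq1, hq2⟩ := H.up (ω i) (vy y)
    refine ⟨q, ?_, hq1⟩
    show h 0 + (k : ℝ) < h q
    obtain ⟨j, hj⟩ := topS_mem h ω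
    have h1 := hi.2 j
    have h2 := vy_ge y
    linarith

/-- **Near-maximisers of a steep function.** -/
theorem steep_tail {h : Pt → ℝ} (H : Steep h) (n : ℕ) {y x : ℝ} (hy : 0 ≤ y) (hx : 0 ≤ x) :
    (((W n).filter (fun ω => (Kb ^ 3) ^ (1 + y) * (1 + x) < nS h y ω)).card : ℝ) ≤
      Real.exp (-x) * (cn n : ℝ) := by
  set w := vy y with hw
  have hw1 : 1 ≤ w := vy_pos hy
  have hP1 : 1 ≤ Pf w := (cnt_w w hw1).2.1
  have hP : (1 : ℝ) ≤ Pf w := by exact_mod_cast hP1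
  have hw7 : (1 : ℝ) ≤ ((w + 7 : ℕ) : ℝ) := by
    push_cast
    have : (0 : ℝ) ≤ w := Nat.cast_nonneg _
    linarith
  have hC : (1 : ℝ) ≤ Pf w * ((w + 7 : ℕ) : ℝ) := by nlinarith
  have hT := thr (g := 16) (by norm_num) w hw1 ((w + 7 : ℕ) : ℝ) 8 hw7
    (by exact_mod_cast w7 w hw1) x hx
  have h1 := conv (W n) (cn n : ℝ) (fun ω => nS h y ω)
    (G3 w * ∑ e ∈ Finset.range w, Kg 16 e) (2 * G3 w) (Pf w * ((w + 7 : ℕ) : ℝ)) hC
    (fun r hr => by
      refine ((famS H (Finset.range (n + 1)) w).tail' hw1 (by norm_num) r n hr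
        (fun ω => ⌈topS h ω - h 0⌉₊) _ (fun ω hω => ?_)).trans ?_
      · rw [Finset.mem_filter] at hω
        obtain ⟨h2, h3, h4⟩ := selS H (mem_W.1 hω.1) (y := y)
        exact ⟨hω.1, h2, trivial, h3, hω.2.trans h4⟩
      · rw [mul_assoc]
        refine mul_le_mul_of_nonneg_left ?_ (by linarith)
        push_cast
        refine mul_le_mul_of_nonneg_left ?_ (by positivity)
        rw [Nat.cast_le]
        have h2 := LS_le n
        rw [Set.ncard_eq_toFinset_card _ (LS_finite _)] at h2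
        exact h2) x hx
  refine le_trans ?_ h1
  rw [Nat.cast_le]
  refine Finset.card_le_card ?_
  intro ω hω
  rw [Finset.mem_filter] at hω ⊢
  refine ⟨hω.1, lt_of_le_of_lt (hT.trans ?_) hω.2⟩
  refine mul_le_mul_of_nonneg_right ?_ (by linarith)
  refine le_trans (le_of_eq ?_) (Kpow3 Kb_gt hy)
  rw [hw]
  unfold Kb
  norm_num

/-- a finite family of steep functions -/
theorem steep_fam {ι : Type} (T : Finset ι) (h : ι → Pt → ℝ) (H : ∀ t ∈ T, Steep (h t))
    (hT : T.Nonempty) (n : ℕ) {y x : ℝ} (hy : 0 ≤ y) (hx : 0 ≤ x) :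
    (((W n).filter (fun ω => ∃ t ∈ T, (Kb ^ 3) ^ (1 + y) * (1 + (x + Real.log T.card)) <
      nS (h t) y ω)).card : ℝ) ≤ Real.exp (-x) * (cn n : ℝ) := by
  have hT0 : (0 : ℝ) < T.card := by exact_mod_cast hT.card_pos
  have hT1 : (1 : ℝ) ≤ T.card := by exact_mod_cast hT.card_pos
  have hl := Real.log_nonneg hT1
  have hsub : (W n).filter (fun ω => ∃ t ∈ T, (Kb ^ 3) ^ (1 + y) *
      (1 + (x + Real.log T.card)) < nS (h t) y ω) ⊆
      T.biUnion (fun t => (W n).filter (fun ω => (Kb ^ 3) ^ (1 + y) *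
        (1 + (x + Real.log T.card)) < nS (h t) y ω)) := by
    intro ω hω
    rw [Finset.mem_filter] at hω
    obtain ⟨h1, t, ht, h2⟩ := hω
    rw [Finset.mem_biUnion]
    exact ⟨t, ht, Finset.mem_filter.2 ⟨h1, h2⟩⟩
  have h1 : (((W n).filter (fun ω => ∃ t ∈ T, (Kb ^ 3) ^ (1 + y) *
      (1 + (x + Real.log T.card)) < nS (h t) y ω)).card : ℝ) ≤
      ∑ t ∈ T, (((W n).filter (fun ω => (Kb ^ 3) ^ (1 + y) *
        (1 + (x + Real.log T.card)) < nS (h t) y ω)).card : ℝ) := by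
    exact_mod_cast (Finset.card_le_card hsub).trans Finset.card_biUnion_le
  refine h1.trans ?_
  calc _ ≤ ∑ t ∈ T, Real.exp (-(x + Real.log T.card)) * (cn n : ℝ) :=
        Finset.sum_le_sum (fun t ht => steep_tail (H t ht) n hy (by linarith))
    _ = T.card * (Real.exp (-(x + Real.log T.card)) * (cn n : ℝ)) := by
        rw [Finset.sum_const, nsmul_eq_mul]
    _ = Real.exp (-x) * (cn n : ℝ) := by
        rw [neg_add, Real.exp_add, Real.exp_neg (Real.log _), Real.exp_log hT0]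
        field_simp

end Run7.h738.BV
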